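import Mathlib
import Pool.Graph.R_pool_sql_team_seeded_3dad9d7b.NH28.QP.Stm

/-!
Forms on the plane of binary quadratic forms, in the coordinates given by two different points of
the projective line: `t = Hp P`, `u = Hp R`, the polarisation `s = sf P R` and the discriminant
`Dc`, with `s ^ 2 - 4 t u = (det) ^ 2 Dc`. The forms `Dc ^ (i / 2) s ^ (i % 2) t ^ a u ^ b`,
`i + a + b = N`, span the forms of degree `N`.
-/

set_option autoImplicit false

namespace Pool.Agent.H933.QP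

open MvPolynomial
open Pool.Agent.NH28.QP (Qb PQ mp Dc Hp)

/-- the polarisation -/
noncomputable def sf (P R : Qb × Qb) : PQ :=
  C (2 * P.2 * R.2) * X 0 + C (P.1 * R.2 + P.2 * R.1) * X 1 + C (2 * P.1 * R.1) * X 2

/-- the determinant -/
noncomputable def dt (P R : Qb × Qb) : Qb := P.1 * R.2 - P.2 * R.1

theorem quad (P R : Qb × Qb) :
    sf P R ^ 2 = C (dt P R ^ 2) * Dc + C 4 * (Hp P * Hp R) := by
  unfold sf Hp Dc dt
  have h4 : (4 : PQ) = C 4 := by rw [map_ofNat]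
  rw [h4]
  simp only [map_mul, map_add, map_sub, map_pow, map_ofNat]
  ring

theorem lin0 (P R : Qb × Qb) : C (dt P R ^ 2) * X 0 =
    C (R.1 ^ 2) * Hp P - C (P.1 * R.1) * sf P R + C (P.1 ^ 2) * Hp R := by
  unfold sf Hp dt
  simp only [map_mul, map_add, map_sub, map_pow, map_ofNat]
  ring

theorem lin2 (P R : Qb × Qb) : C (dt P R ^ 2) * X 2 =
    C (R.2 ^ 2) * Hp P - C (P.2 * R.2) * sf P R + C (P.2 ^ 2) * Hp R := by
  unfold sf Hp dt
  simp only [map_mul, map_add, map_sub, map_pow, map_ofNat]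
  ring

theorem lin1 (P R : Qb × Qb) : C (dt P R ^ 2) * X 1 =
    C (-(2 * R.1 * R.2)) * Hp P + C (P.1 * R.2 + P.2 * R.1) * sf P R
      + C (-(2 * P.1 * P.2)) * Hp R := by
  unfold sf Hp dt
  simp only [map_mul, map_add, map_sub, map_pow, map_ofNat, map_neg]
  ring

/-- the adapted forms -/
noncomputable def Bf (P R : Qb × Qb) (m : Fin 3 → ℕ) : PQ :=
  Dc ^ (m 0 / 2) * sf P R ^ (m 0 % 2) * Hp P ^ (m 1) * Hp R ^ (m 2)

theorem hom_Dc : (Dc).IsHomogeneous 2 := by
  unfold Dc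
  have h4 : (4 : PQ) = C 4 := by rw [map_ofNat]
  rw [h4]
  have h1 : ((X 1 : PQ) ^ 2).IsHomogeneous 2 := by simpa using (isHomogeneous_X Qb (1 : Fin 3)).pow 2
  have h2 : (C 4 * (X 0 * X 2) : PQ).IsHomogeneous 2 := by
    have := (isHomogeneous_C (Fin 3) (4 : Qb)).mul
      ((isHomogeneous_X Qb (0 : Fin 3)).mul (isHomogeneous_X Qb (2 : Fin 3)))
    simpa using this
  exact h1.sub h2

theorem hom_lin (a b c : Qb) : (C a * X 0 + C b * X 1 + C c * X 2 : PQ).IsHomogeneous 1 := by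
  have h : ∀ (a : Qb) (i : Fin 3), (C a * X i : PQ).IsHomogeneous 1 := by
    intro a i
    have := (isHomogeneous_C (Fin 3) a).mul (isHomogeneous_X Qb i)
    simpa using this
  exact ((h a 0).add (h b 1)).add (h c 2)

theorem hom_Hp (P : Qb × Qb) : (Hp P).IsHomogeneous 1 := hom_lin _ _ _

theorem hom_sf (P R : Qb × Qb) : (sf P R).IsHomogeneous 1 := hom_lin _ _ _

theorem hom_Bf (P R : Qb × Qb) (m : Fin 3 → ℕ) : (Bf P R m).IsHomogeneous (m 0 + m 1 + m 2) := by
  unfold Bf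
  have := (((hom_Dc.pow (m 0 / 2)).mul ((hom_sf P R).pow (m 0 % 2))).mul
    ((hom_Hp P).pow (m 1))).mul ((hom_Hp R).pow (m 2))
  have e : 2 * (m 0 / 2) + 1 * (m 0 % 2) + 1 * m 1 + 1 * m 2 = m 0 + m 1 + m 2 := by omega
  rwa [e] at this

/-- the span of the adapted forms of degree `N` -/
noncomputable def Vs (P R : Qb × Qb) (N : ℕ) : Submodule Qb PQ :=
  Submodule.span Qb {g | ∃ m : Fin 3 → ℕ, m 0 + m 1 + m 2 = N ∧ g = Bf P R m}

theorem Bf_mem (P R : Qb × Qb) {N : ℕ} (m : Fin 3 → ℕ) (h : m 0 + m 1 + m 2 = N) :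
    Bf P R m ∈ Vs P R N := Submodule.subset_span ⟨m, h, rfl⟩

theorem Dc_mul (P R : Qb × Qb) (N : ℕ) (g : PQ) (hg : g ∈ Vs P R N) : Dc * g ∈ Vs P R (N + 2) := by
  induction hg using Submodule.span_induction with
  | mem x hx =>
    obtain ⟨m, hm, rfl⟩ := hx
    have h := Bf_mem P R (N := N + 2) ![m 0 + 2, m 1, m 2] (by simp; omega)
    have e : Bf P R ![m 0 + 2, m 1, m 2] = Dc * Bf P R m := by
      unfold Bf
      have e1 : (m 0 + 2) / 2 = m 0 / 2 + 1 := by omega
      have e2 : (m 0 + 2) % 2 = m 0 % 2 := by omega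
      simp only [Matrix.cons_val_zero, Matrix.cons_val_one, Matrix.cons_val]
      rw [e1, e2]
      ring
    rwa [e] at h
  | zero => rw [mul_zero]; exact Submodule.zero_mem _
  | add x y _ _ hx hy => rw [mul_add]; exact Submodule.add_mem _ hx hy
  | smul a x _ hx => rw [mul_smul_comm]; exact Submodule.smul_mem _ a hx

theorem mono_mem (P R : Qb × Qb) : ∀ (i a b : ℕ),
    sf P R ^ i * Hp P ^ a * Hp R ^ b ∈ Vs P R (i + a + b) := by
  intro i
  induction i using Nat.strong_induction_on with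
  | _ i ih =>
    intro a b
    rcases lt_or_ge i 2 with h2 | h2
    · have h := Bf_mem P R (N := i + a + b) ![i, a, b] (by simp)
      have e : Bf P R ![i, a, b] = sf P R ^ i * Hp P ^ a * Hp R ^ b := by
        unfold Bf
        have e1 : i / 2 = 0 := by omega
        have e2 : i % 2 = i := by omega
        simp only [Matrix.cons_val_zero, Matrix.cons_val_one, Matrix.cons_val]
        rw [e1, e2]
        ring
      rwa [e] at h
    · obtain ⟨k, rfl⟩ : ∃ k, i = k + 2 := ⟨i - 2, by omega⟩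
      have e : sf P R ^ (k + 2) * Hp P ^ a * Hp R ^ b =
          (dt P R ^ 2) • (Dc * (sf P R ^ k * Hp P ^ a * Hp R ^ b)) +
          (4 : Qb) • (sf P R ^ k * Hp P ^ (a + 1) * Hp R ^ (b + 1)) := by
        rw [pow_add, quad, MvPolynomial.smul_eq_C_mul, MvPolynomial.smul_eq_C_mul]
        ring
      rw [e]
      refine Submodule.add_mem _ (Submodule.smul_mem _ _ ?_) (Submodule.smul_mem _ _ ?_)
      · have h := Dc_mul P R _ _ (ih k (by omega) a b)
        have e3 : k + a + b + 2 = k + 2 + a + b := by omega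
        rwa [e3] at h
      · have h := ih k (by omega) (a + 1) (b + 1)
        have e3 : k + (a + 1) + (b + 1) = k + 2 + a + b := by omega
        rwa [e3] at h

/-- the span of the monomials in `s, t, u` of degree `N` -/
noncomputable def Ws (P R : Qb × Qb) (N : ℕ) : Submodule Qb PQ :=
  Submodule.span Qb {g | ∃ i a b : ℕ, i + a + b = N ∧ g = sf P R ^ i * Hp P ^ a * Hp R ^ b}

theorem Ws_le (P R : Qb × Qb) (N : ℕ) : Ws P R N ≤ Vs P R N := by
  refine Submodule.span_le.2 ?_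
  rintro g ⟨i, a, b, rfl, rfl⟩
  exact mono_mem P R i a b

theorem X_mul (P R : Qb × Qb) (h : dt P R ≠ 0) (N : ℕ) (g : PQ) (hg : g ∈ Ws P R N) (r : Fin 3) :
    X r * g ∈ Ws P R (N + 1) := by
  have hgen : ∀ (α β γ : Qb), (C α * Hp P + C β * sf P R + C γ * Hp R) * g ∈ Ws P R (N + 1) := by
    intro α β γ
    induction hg using Submodule.span_induction with
    | mem x hx =>
      obtain ⟨i, a, b, hm, rfl⟩ := hx
      have e : (C α * Hp P + C β * sf P R + C γ * Hp R) * (sf P R ^ i * Hp P ^ a * Hp R ^ b) =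
          α • (sf P R ^ i * Hp P ^ (a + 1) * Hp R ^ b) +
          β • (sf P R ^ (i + 1) * Hp P ^ a * Hp R ^ b) +
          γ • (sf P R ^ i * Hp P ^ a * Hp R ^ (b + 1)) := by
        simp only [MvPolynomial.smul_eq_C_mul]
        ring
      rw [e]
      refine Submodule.add_mem _ (Submodule.add_mem _ ?_ ?_) ?_
      · exact Submodule.smul_mem _ _ (Submodule.subset_span ⟨i, a + 1, b, by omega, rfl⟩)
      · exact Submodule.smul_mem _ _ (Submodule.subset_span ⟨i + 1, a, b, by omega, rfl⟩)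
      · exact Submodule.smul_mem _ _ (Submodule.subset_span ⟨i, a, b + 1, by omega, rfl⟩)
    | zero => rw [mul_zero]; exact Submodule.zero_mem _
    | add x y _ _ hx hy => rw [mul_add]; exact Submodule.add_mem _ hx hy
    | smul a x _ hx => rw [mul_smul_comm]; exact Submodule.smul_mem _ a hx
  have key : ∀ Y : PQ, C (dt P R ^ 2) * Y * g ∈ Ws P R (N + 1) → Y * g ∈ Ws P R (N + 1) := by
    intro Y hY
    have h2 := Submodule.smul_mem _ ((dt P R ^ 2)⁻¹) hY
    have e : (dt P R ^ 2)⁻¹ • (C (dt P R ^ 2) * Y * g) = Y * g := by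
      rw [mul_assoc, ← MvPolynomial.smul_eq_C_mul, smul_smul, inv_mul_cancel₀ (pow_ne_zero 2 h),
        one_smul]
    rwa [e] at h2
  apply key
  fin_cases r
  · show C (dt P R ^ 2) * X 0 * g ∈ _
    rw [lin0]
    have := hgen (R.1 ^ 2) (-(P.1 * R.1)) (P.1 ^ 2)
    rwa [C_neg, neg_mul, ← sub_eq_add_neg] at this
  · show C (dt P R ^ 2) * X 1 * g ∈ _
    rw [lin1]
    exact hgen _ _ _
  · show C (dt P R ^ 2) * X 2 * g ∈ _
    rw [lin2]
    have := hgen (R.2 ^ 2) (-(P.2 * R.2)) (P.2 ^ 2)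
    rwa [C_neg, neg_mul, ← sub_eq_add_neg] at this

theorem one_mem (P R : Qb × Qb) : (1 : PQ) ∈ Ws P R 0 :=
  Submodule.subset_span ⟨0, 0, 0, rfl, by simp⟩

theorem monomial_mem (P R : Qb × Qb) (h : dt P R ≠ 0) (m : Fin 3 → ℕ) :
    (X 0 ^ m 0 * X 1 ^ m 1 * X 2 ^ m 2 : PQ) ∈ Vs P R (m 0 + m 1 + m 2) := by
  apply Ws_le
  have h1 : ∀ (r : Fin 3) (k N : ℕ) (g : PQ), g ∈ Ws P R N → X r ^ k * g ∈ Ws P R (N + k) := by
    intro r k
    induction k with
    | zero => intro N g hg; simpa using hg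
    | succ k ih =>
      intro N g hg
      have := X_mul P R h _ _ (ih N g hg) r
      rw [pow_succ', mul_assoc]
      exact this
  have h2 := h1 0 (m 0) _ _ (h1 1 (m 1) _ _ (h1 2 (m 2) _ _ (one_mem P R)))
  have e1 : (X 0 ^ m 0 * (X 1 ^ m 1 * (X 2 ^ m 2 * 1)) : PQ) = X 0 ^ m 0 * X 1 ^ m 1 * X 2 ^ m 2 := by
    ring
  have e2 : 0 + m 2 + m 1 + m 0 = m 0 + m 1 + m 2 := by omega
  rwa [e1, e2] at h2

end Pool.Agent.H933.QP
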