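import Pool.Agent.H933.QP.Gen3
import Pool.Graph.R_pool_sql_team_seeded_3dad9d7b.NH95.QP.Main
import Pool.Graph.R_pool_sql_team_seeded_3dad9d7b.NH28.QP.RED
import Pool.Graph.R_pool_sql_team_seeded_3dad9d7b.NH28.QP.CRV
import Pool.Graph.R_pool_sql_team_seeded_3dad9d7b.NH28.QP.AV
import Pool.Graph.R_pool_sql_team_seeded_3dad9d7b.NH28.QP.BAS
import Pool.Graph.R_pool_sql_team_seeded_3dad9d7b.NH28.QP.FIN
import Pool.Graph.R_pool_sql_team_seeded_3dad9d7b.NH28.QP.HOM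
import Pool.Graph.R_pool_sql_team_seeded_3dad9d7b.NH28.QP.HT
import Pool.Graph.R_pool_sql_team_seeded_3dad9d7b.NH28.QP.LIM
import Pool.Graph.R_pool_sql_team_seeded_3dad9d7b.NH28.QP.PF
import Pool.Graph.R_pool_sql_team_seeded_3dad9d7b.NH28.QP.RTL

/-!
The inequality for all points of the plane.
-/

set_option autoImplicit false

namespace Pool.Agent.H933.QP

open MvPolynomial
open Pool.Agent.NH28.QP

theorem crv : S_CRV := t_CRV Pool.Agent.NH95.QP.alg28 (t_LIM t_BDD t_FIN t_HT)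
  (t_ST t_SUB t_BAS t_FIN t_HT) (t_PF t_FIN t_HT) t_HT

theorem red : S_RED := t_RED crv t_HOM (t_RTL t_FIN)

theorem fin_Hx (B : ℝ) : {x : Fin 3 → ℤ | Hx x ≤ B}.Finite := by
  have h1 : (Set.pi Set.univ fun _ : Fin 3 => Set.Icc (-⌈B⌉) ⌈B⌉).Finite :=
    Set.Finite.pi fun _ => Set.finite_Icc _ _
  refine h1.subset fun x hx => ?_
  rw [Set.mem_univ_pi]
  intro i
  have h2 : |(x i : ℝ)| ≤ B := (ST45.le_Hx x i).trans hx
  have h3 : (|x i| : ℤ) ≤ ⌈B⌉ := by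
    have h4 : ((|x i| : ℤ) : ℝ) ≤ (⌈B⌉ : ℝ) := by
      push_cast
      exact h2.trans (Int.le_ceil B)
    exact_mod_cast h4
  rw [Set.mem_Icc]
  exact abs_le.1 h3

theorem lam_prod (W : Option ℕ → AbsoluteValue Qb ℝ) (v : Option ℕ) (q : ℕ)
    (P : Fin q → Qb × Qb) (c : Qb) (hc : c ≠ 0) (x : Fin 3 → ℤ) (hD : ev x Dc ≠ 0)
    (hP : ∀ l, ev x (Hp (P l)) ≠ 0) :
    lam W v (q + 2) (C c * (Dc * ∏ l, Hp (P l))) x =
      (lam W v 2 Dc x + ∑ l, lam W v 1 (Hp (P l)) x) - Real.log (W v c) := by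
  have h1 : ev x (C c * (Dc * ∏ l, Hp (P l))) = c * (ev x Dc * ∏ l, ev x (Hp (P l))) := by
    rw [ev_mul, ev_mul]
    unfold ev
    rw [eval_C, map_prod]
  unfold lam
  rw [h1, map_mul, map_mul, map_prod, Real.log_mul ((W v).ne_zero hc) (mul_ne_zero
    ((W v).ne_zero hD) (Finset.prod_ne_zero_iff.2 fun l _ => (W v).ne_zero (hP l))),
    Real.log_mul ((W v).ne_zero hD) (Finset.prod_ne_zero_iff.2 fun l _ => (W v).ne_zero (hP l)),
    Real.log_prod fun l _ => (W v).ne_zero (hP l), Finset.sum_sub_distrib, Finset.sum_const,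
    Finset.card_univ, Fintype.card_fin, nsmul_eq_mul]
  push_cast
  ring

/-- the theorem on the plane -/
theorem all (q : ℕ) (P : Fin q → Qb × Qb) (hP : ∀ l, P l ≠ 0)
    (hQ : ∀ l l', l ≠ l' → (P l).1 * (P l').2 - (P l).2 * (P l').1 ≠ 0)
    (Φ0 : MvPolynomial (Fin 3) ℚ) (c : Qb) (hc : c ≠ 0)
    (hΦ : mp Φ0 = C c * (Dc * ∏ l, Hp (P l))) (S : Finset ℕ) (hS : ∀ p ∈ S, p.Prime)
    (W : Option ℕ → AbsoluteValue Qb ℝ) (hW : Gd S W) (ε : ℝ) (hε : 0 < ε) :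
    {x : Fin 3 → ℤ | Prm x ∧ ev x (mp Φ0) ≠ 0 ∧
      (4 + ε) * Real.log (Hx x) < ∑ v ∈ Tp S, lam W v (q + 2) (mp Φ0) x}.Finite := by
  obtain ⟨A, ⟨G0, t, hG1, hG2, hG3⟩, c1, hc1⟩ := gen_all hS hW q P hP hQ (ε / 2) (by positivity)
  have hf1 := red G0 t hG1 hG2 q P hP hQ Φ0 c hc hΦ S hS W hW ε hε
  set c2 : ℝ := c1 - ∑ v ∈ Tp S, Real.log (W v c) with hc2
  refine (hf1.union (fin_Hx (Real.exp (2 * c2 / ε)))).subset ?_
  rintro x ⟨hx, hne, hlt⟩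
  have hne' : ev x Dc ≠ 0 ∧ ∀ l, ev x (Hp (P l)) ≠ 0 := by
    rw [hΦ, ev_mul, ev_mul] at hne
    have h1 := right_ne_zero_of_mul hne
    refine ⟨left_ne_zero_of_mul h1, fun l => ?_⟩
    have h2 := right_ne_zero_of_mul h1
    unfold ev at h2 ⊢
    rw [map_prod] at h2
    exact Finset.prod_ne_zero_iff.1 h2 l (Finset.mem_univ l)
  by_cases hxA : x ∈ A
  · left
    exact ⟨hx, hG3 x hxA, hne, hlt⟩
  · right
    have h1 := hc1 x hx hne'.1 hxA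
    have h2 : ∑ v ∈ Tp S, lam W v (q + 2) (mp Φ0) x =
        ∑ v ∈ Tp S, (lam W v 2 Dc x + ∑ l, lam W v 1 (Hp (P l)) x) -
          ∑ v ∈ Tp S, Real.log (W v c) := by
      rw [← Finset.sum_sub_distrib, hΦ]
      exact Finset.sum_congr rfl fun v _ => lam_prod W v q P c hc x hne'.1 hne'.2
    have h3 : ε * Real.log (Hx x) < 2 * c2 := by
      rw [h2] at hlt
      rw [hc2]
      linarith
    have h4 : Real.log (Hx x) < 2 * c2 / ε := by
      rw [lt_div_iff₀ hε]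
      linarith
    have h5 : 0 < Hx x := lt_of_lt_of_le one_pos (ST45.one_le_Hx (ST45.prm_ne hx))
    show Hx x ≤ _
    exact ((Real.log_lt_iff_lt_exp h5).1 h4).le

end Pool.Agent.H933.QP
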