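import Pool.Agent.H933.QP.Tr2

/-!
The conductor of the order of a quadratic polynomial.
-/

set_option autoImplicit false

namespace Pool.Agent.H933.QP

open Polynomial IntermediateField NumberField
open Pool.Agent.NH28.QP (minpoly_COR field_COR)

/-- the discriminant of a quadratic polynomial is the discriminant of the field times a square -/
theorem cond_K {K : Type} [Field K] [NumberField K] (h2 : Module.finrank ℚ K = 2) (a b c : ℤ)
    (ha : a ≠ 0) (y : K) (hy : (a : K) * y ^ 2 + b * y + c = 0) (hr : ∀ r : ℚ, y ≠ (r : K)) :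
    ∃ m : ℤ, m ≠ 0 ∧ b ^ 2 - 4 * a * c = m ^ 2 * discr K := by
  have haK : (a : K) ≠ 0 := by exact_mod_cast ha
  have hint : IsIntegral ℤ ((a : K) * y) := by
    refine ⟨X ^ 2 + C b * X + C (a * c), ?_, ?_⟩
    · have : (X ^ 2 + C b * X + C (a * c) : ℤ[X]) = X ^ 2 + (C b * X + C (a * c)) := by ring
      rw [this]
      apply monic_X_pow_add
      exact lt_of_le_of_lt degree_linear_le (by norm_num)
    · simp only [eval₂_add, eval₂_mul, eval₂_pow, eval₂_X, eval₂_C]
      simp only [eq_intCast]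
      push_cast
      linear_combination (a : K) * hy
  set α : 𝓞 K := ⟨(a : K) * y, hint⟩ with hα
  have hαK : (α : K) = (a : K) * y := rfl
  have hne : ∀ m : ℤ, α ≠ (m : 𝓞 K) := by
    intro m h
    have h1 : (a : K) * y = (m : K) := by
      rw [← hαK, h]
      simp
    apply hr ((m : ℚ) / a)
    push_cast
    rw [eq_div_iff haK, mul_comm]
    exact h1
  obtain ⟨t, m, hm, h3, h4⟩ := Pool.Agent.TH847.LS.quad_eq h2 α hne
  have h5 : (2 * (a * y) - (t : K)) ^ 2 = ((m ^ 2 * discr K : ℤ) : K) := by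
    rw [← h4]
    have h6 := congrArg (fun z : 𝓞 K => (z : K)) h3
    rw [← hαK]
    push_cast at h6 ⊢
    exact h6
  have h6 : (2 * (a * y) + (b : K)) ^ 2 = ((b ^ 2 - 4 * a * c : ℤ) : K) := by
    push_cast
    linear_combination (4 * a : K) * hy
  have h7 : t = -b := by
    by_contra hne
    have h8 : (b : K) + t ≠ 0 := by
      intro h
      apply hne
      have h9 : ((b + t : ℤ) : K) = 0 := by push_cast; exact h
      have h10 : b + t = 0 := by exact_mod_cast h9
      linarith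
    apply hr (((b ^ 2 - 4 * a * c : ℤ) - (m ^ 2 * discr K : ℤ) - b ^ 2 + t ^ 2 : ℚ) /
      (4 * a * (b + t)))
    have h9 : (4 * (a : K) * (b + t)) ≠ 0 := mul_ne_zero (mul_ne_zero (by norm_num) haK) h8
    push_cast
    rw [eq_div_iff h9]
    push_cast at h5 h6
    linear_combination h6 - h5
  refine ⟨m, hm, ?_⟩
  have h8 : ((b ^ 2 - 4 * a * c : ℤ) : K) = ((m ^ 2 * discr K : ℤ) : K) := by
    rw [← h5, ← h6, h7]
    push_cast
    ring
  exact_mod_cast h8

/-- the conductor -/
theorem exists_cond (x : ℂ) (f : ℤ[X]) (hf : Irreducible f) (hd : f.natDegree = 2)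
    (hx : aeval x f = 0) (nf : NumberField ℚ⟮x⟯) (h2 : Module.finrank ℚ ℚ⟮x⟯ = 2) :
    ∃ c : ℕ, 0 < c ∧ Polynomial.discr f = NumberField.discr ℚ⟮x⟯ * (c : ℤ) ^ 2 := by
  have hmp := minpoly_COR hf hd hx
  have hxK : x ∈ ℚ⟮x⟯ := mem_adjoin_simple_self ℚ x
  have ha : f.coeff 2 ≠ 0 := by
    have := leadingCoeff_ne_zero.2 hf.ne_zero
    rwa [leadingCoeff, hd] at this
  obtain ⟨m, hm, h3⟩ := cond_K (K := ℚ⟮x⟯) h2 (f.coeff 2) (f.coeff 1) (f.coeff 0) ha ⟨x, hxK⟩ (by
    apply Subtype.ext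
    push_cast
    have h4 := hx
    rw [eq_of_deg hd] at h4
    simp only [map_add, map_mul, aeval_C, aeval_X, map_pow] at h4
    simp only [eq_intCast] at h4
    show (f.coeff 2 : ℂ) * x ^ 2 + (f.coeff 1 : ℂ) * x + (f.coeff 0 : ℂ) = 0
    linear_combination h4) (by
    intro r h
    have h4 : x = algebraMap ℚ ℂ r := by
      have h5 := congrArg (fun z : ℚ⟮x⟯ => (z : ℂ)) h
      simp only at h5
      rw [h5]
      simp
    rw [h4, minpoly.eq_X_sub_C] at hmp
    rw [natDegree_X_sub_C] at hmp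
    omega)
  refine ⟨m.natAbs, Int.natAbs_pos.2 hm, ?_⟩
  rw [discr_of_degree_eq_two (deg_two hd), Int.natAbs_sq, mul_comm (NumberField.discr _), ← h3]
  ring

end Pool.Agent.H933.QP
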