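import Mathlib
import Pool.Graph.R_seed8.R405.SchV

/-!
The places of `ℚ`.
-/

set_option autoImplicit false

namespace Pool.Agent.H933.QP

open NumberField IsDedekindDomain Height
open Pool.Agent.W180.OP (Pl av wt nrm fv fv_apply)

/-- the prime of `ℚ` generated by `p` -/
noncomputable def plc (p : ℕ) (hp : p.Prime) : HeightOneSpectrum (𝓞 ℚ) :=
  Rat.HeightOneSpectrum.primesEquiv.symm ⟨p, hp⟩

theorem plc_ideal (p : ℕ) (hp : p.Prime) : (plc p hp).asIdeal = Ideal.span {(p : 𝓞 ℚ)} := by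
  have h : (plc p hp).asIdeal = (Ideal.span {(p : ℤ)}).map
      (Rat.IsIntegralClosure.intEquiv (𝓞 ℚ)).symm := rfl
  rw [h, Ideal.map_span, Set.image_singleton]
  simp

theorem plc_mem (p : ℕ) (hp : p.Prime) (n : ℕ) : (n : 𝓞 ℚ) ∈ (plc p hp).asIdeal ↔ p ∣ n := by
  rw [plc_ideal, Ideal.mem_span_singleton]
  constructor
  · intro h
    have h1 := map_dvd (Rat.IsIntegralClosure.intEquiv (𝓞 ℚ)) h
    rw [map_natCast, map_natCast] at h1
    exact_mod_cast h1
  · rintro ⟨k, rfl⟩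
    exact ⟨(k : 𝓞 ℚ), by push_cast; ring⟩

theorem fv_nat_one (p : ℕ) (hp : p.Prime) (n : ℕ) (hn : ¬ p ∣ n) : fv (plc p hp) (n : ℚ) = 1 := by
  have h := (FinitePlace.norm_eq_one_iff_notMem ℚ (plc p hp) (n : 𝓞 ℚ)).2
    (fun h => hn ((plc_mem p hp n).1 h))
  rw [map_natCast] at h
  exact h

theorem absNorm_plc (p : ℕ) (hp : p.Prime) : Ideal.absNorm (plc p hp).asIdeal = p := by
  rw [plc_ideal, Ideal.absNorm_span_singleton]
  have h3 := Algebra.norm_algebraMap_of_basis (RingOfIntegers.basis ℚ) (p : ℤ)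
  rw [← Module.finrank_eq_card_basis (RingOfIntegers.basis ℚ), RingOfIntegers.rank,
    Module.finrank_self, pow_one] at h3
  have h4 : (algebraMap ℤ (𝓞 ℚ)) (p : ℤ) = (p : 𝓞 ℚ) := by simp
  rw [h4] at h3
  rw [h3]
  simp

theorem fv_self (p : ℕ) (hp : p.Prime) : fv (plc p hp) (p : ℚ) = (p : ℝ)⁻¹ := by
  have hp0 : (p : 𝓞 ℚ) ≠ 0 := by exact_mod_cast hp.ne_zero
  have h := FinitePlace.norm_embedding_int ℚ (plc p hp) (p : 𝓞 ℚ)
  rw [HeightOneSpectrum.intValuation_singleton _ hp0 (plc_ideal p hp), map_natCast] at h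
  have h5 : fv (plc p hp) (p : ℚ) = ‖(FinitePlace.embedding (plc p hp)) (p : ℚ)‖ := rfl
  rw [h5, h]
  rw [WithZeroMulInt.toNNReal_neg_apply _ (by simp)]
  have h6 : (WithZero.unzero (show (WithZero.exp (-1 : ℤ)) ≠ 0 by simp)) =
      Multiplicative.ofAdd (-1 : ℤ) := rfl
  rw [h6, toAdd_ofAdd, absNorm_plc p hp]
  simp

theorem fv_eq (p : ℕ) (hp : p.Prime) (x : ℚ) : fv (plc p hp) x = ((padicNorm p x : ℚ) : ℝ) := by
  have hF : Fact p.Prime := ⟨hp⟩
  have h : fv (plc p hp) = Rat.AbsoluteValue.padic p := by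
    refine Rat.AbsoluteValue.eq_on_nat_iff_eq.1 fun n => ?_
    rcases Nat.eq_zero_or_pos n with h0 | h0
    · subst h0
      simp
    · obtain ⟨k, m, hm, rfl⟩ := Nat.exists_eq_pow_mul_and_not_dvd h0.ne' p hp.ne_one
      push_cast
      rw [map_mul, map_mul, map_pow, map_pow, fv_self, fv_nat_one p hp m hm]
      rw [Rat.AbsoluteValue.padic_eq_padicNorm, Rat.AbsoluteValue.padic_eq_padicNorm,
        padicNorm.padicNorm_p_of_prime, (padicNorm.nat_eq_one_iff m).2 hm]
      push_cast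
      rfl
  rw [h, Rat.AbsoluteValue.padic_eq_padicNorm]

/-- the infinite place -/
noncomputable def inf : InfinitePlace ℚ := Rat.infinitePlace

theorem inf_eq (x : ℚ) : av (Sum.inl inf) x = |(x : ℝ)| := by
  have h := Rat.infinitePlace_apply inf x
  have h2 : av (Sum.inl inf) x = inf x := rfl
  rw [h2, h]
  push_cast
  rfl

theorem wt_inf : wt (Sum.inl inf : Pl ℚ) = 1 := by
  have h : inf.IsReal := Rat.isReal_infinitePlace
  show ((inf.mult : ℕ) : ℝ) = 1
  rw [InfinitePlace.mult_isReal ⟨inf, h⟩]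
  simp

/-- the place of `ℚ` -/
noncomputable def pl : Option ℕ → Pl ℚ
  | none => Sum.inl inf
  | some p => if hp : p.Prime then Sum.inr (plc p hp) else Sum.inl inf

theorem pl_some (p : ℕ) (hp : p.Prime) : pl (some p) = Sum.inr (plc p hp) := dif_pos hp

theorem pl_some' (p : ℕ) (hp : ¬ p.Prime) : pl (some p) = Sum.inl inf := dif_neg hp

theorem wt_pl (v : Option ℕ) : wt (pl v) = 1 := by
  rcases v with _ | p
  · exact wt_inf
  · by_cases hp : p.Prime
    · rw [pl_some p hp]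
      rfl
    · rw [pl_some' p hp]
      exact wt_inf

theorem av_none (x : ℚ) : av (pl none) x = |(x : ℝ)| := inf_eq x

theorem av_some (p : ℕ) (hp : p.Prime) (x : ℚ) : av (pl (some p)) x = ((padicNorm p x : ℚ) : ℝ) := by
  rw [pl_some p hp]
  exact fv_eq p hp x

theorem plc_inj (p q : ℕ) (hp : p.Prime) (hq : q.Prime) (h : plc p hp = plc q hq) : p = q := by
  have h1 := Rat.HeightOneSpectrum.primesEquiv.symm.injective h
  exact congrArg Subtype.val h1

theorem pl_inj (S : Finset ℕ) (hS : ∀ p ∈ S, p.Prime) (v w : Option ℕ)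
    (hv : v ∈ insert none (S.image some)) (hw : w ∈ insert none (S.image some))
    (h : pl v = pl w) : v = w := by
  rw [Finset.mem_insert, Finset.mem_image] at hv hw
  rcases hv with rfl | ⟨p, hp, rfl⟩ <;> rcases hw with rfl | ⟨q, hq, rfl⟩
  · rfl
  · rw [pl_some q (hS q hq)] at h
    exact absurd h Sum.inl_ne_inr
  · rw [pl_some p (hS p hp)] at h
    exact absurd h Sum.inr_ne_inl
  · rw [pl_some p (hS p hp), pl_some q (hS q hq)] at h
    rw [plc_inj p q (hS p hp) (hS q hq) (Sum.inr.inj h)]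

end Pool.Agent.H933.QP
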