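import Mathlib
import Pool.Agent.H933.QP.Plc
import Pool.Graph.R_pool_sql_team_seeded_3dad9d7b.NH28.QP.Stm
import Pool.Graph.R_pool_sql_team_seeded_3dad9d7b.NH28.QP.SUB1

/-!
The subspace theorem over `ℚ` for linear forms with algebraic coefficients and absolute values of
an algebraic closure of `ℚ` (statement `S_SUB` of the project `NH28.QP`), from the theorem over
number fields.
-/

set_option autoImplicit false

namespace Pool.Agent.H933.QP

open NumberField IsDedekindDomain Height Finset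
open Pool.Agent.W180.OP (Pl av wt nrm fv fv_apply)
open Pool.Agent.R405 (schV Good exists_good dot exv)
open Pool.Agent.NH28.QP (S_SUB Gd Tp Qb Hx conj_abs_sub big_field_sub)

theorem logHeight_le {M : ℕ} (y : Fin M → ℤ) (hy : y ≠ 0) :
    logHeight (fun j => ((y j : ℤ) : ℚ)) ≤ Real.log (Hx y) := by
  classical
  obtain ⟨i, hi⟩ := Function.ne_iff.1 hy
  have hne : Nonempty (Fin M) := ⟨i⟩
  obtain ⟨g, hg, hg1⟩ := Finset.extract_gcd y (Finset.univ_nonempty)
  set d : ℤ := Finset.univ.gcd y with hd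
  have hd0 : d ≠ 0 := by
    intro h0
    rw [Finset.gcd_eq_zero_iff] at h0
    exact hi (h0 i (mem_univ i))
  have h1 : (fun j => ((y j : ℤ) : ℚ)) = (d : ℚ) • (((↑) : ℤ → ℚ) ∘ g) := by
    funext j
    rw [Pi.smul_apply, Function.comp_apply, smul_eq_mul, hg j (mem_univ j)]
    push_cast
    rfl
  have hdq : (d : ℚ) ≠ 0 := by exact_mod_cast hd0
  rw [h1, logHeight_smul_eq_logHeight _ hdq, Rat.logHeight_eq_max_abs_of_gcd_eq_one hg1]
  have hgi : g i ≠ 0 := by
    intro h0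
    apply hi
    rw [hg i (mem_univ i), h0, mul_zero]
    rfl
  have hbdd : BddAbove (Set.range fun i => |(g i)|) := (Set.finite_range _).bddAbove
  have hpos : (0 : ℤ) < ⨆ i, |g i| := (abs_pos.2 hgi).trans_le (le_ciSup hbdd i)
  refine Real.log_le_log (by exact_mod_cast hpos) ?_
  obtain ⟨j, hj⟩ := exists_eq_ciSup_of_finite (f := fun i => |g i|)
  rw [← hj]
  unfold Hx
  have h2 : |(y j : ℝ)| ≤ ⨆ i, |(y i : ℝ)| := le_ciSup (f := fun i => |(y i : ℝ)|)
    (Set.finite_range _).bddAbove j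
  refine le_trans ?_ h2
  rw [hg j (mem_univ j)]
  push_cast
  rw [abs_mul]
  have hd1 : (1 : ℝ) ≤ |(d : ℝ)| := by
    have := Int.one_le_abs hd0
    exact_mod_cast this
  have := abs_nonneg ((g j : ℤ) : ℝ)
  nlinarith

theorem one_le_Hx {M : ℕ} (y : Fin M → ℤ) (hy : y ≠ 0) : 1 ≤ Hx y := by
  obtain ⟨i, hi⟩ := Function.ne_iff.1 hy
  have h2 : |(y i : ℝ)| ≤ ⨆ i, |(y i : ℝ)| := le_ciSup (f := fun i => |(y i : ℝ)|)
    (Set.finite_range _).bddAbove i
  refine le_trans ?_ h2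
  have h3 : (y i) ≠ 0 := hi
  have := Int.one_le_abs h3
  exact_mod_cast this

theorem W_rat {S : Finset ℕ} {W : Option ℕ → AbsoluteValue Qb ℝ} (hS : ∀ p ∈ S, p.Prime)
    (hW : Gd S W) {v : Option ℕ} (hv : v ∈ Tp S) (r : ℚ) : W v (r : Qb) = av (pl v) r := by
  have e : (r : Qb) = algebraMap ℚ Qb r := (eq_ratCast _ r).symm
  rw [e]
  unfold Tp at hv
  rw [Finset.mem_insert, Finset.mem_image] at hv
  rcases hv with rfl | ⟨p, hp, rfl⟩
  · rw [hW.inf, av_none]
  · rw [hW.fin p hp, av_some p (hS p hp)]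

theorem ne_one_pl {S : Finset ℕ} (hS : ∀ p ∈ S, p.Prime) {v : Option ℕ} (hv : v ∈ Tp S) :
    ∃ r : ℚ, r ≠ 0 ∧ av (pl v) r ≠ 1 := by
  unfold Tp at hv
  rw [Finset.mem_insert, Finset.mem_image] at hv
  rcases hv with rfl | ⟨p, hp, rfl⟩
  · refine ⟨2, two_ne_zero, ?_⟩
    rw [av_none]
    norm_num
  · have hF : Fact p.Prime := ⟨hS p hp⟩
    refine ⟨p, by exact_mod_cast (hS p hp).ne_zero, ?_⟩
    rw [av_some p (hS p hp), padicNorm.padicNorm_p_of_prime]
    push_cast
    intro h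
    rw [inv_eq_one] at h
    exact (hS p hp).ne_one (by exact_mod_cast h)

theorem t_SUB : S_SUB := by
  classical
  intro S hS W hW T' hT' M hM L hL ε hε
  rcases T'.eq_empty_or_nonempty with hT0 | hTne
  · refine ⟨∅, by simp, 0, fun y hy _ _ => ?_⟩
    rw [hT0, Finset.sum_empty, add_zero]
    exact mul_nonneg (by positivity) (Real.log_nonneg (one_le_Hx y hy))
  obtain ⟨v0, hv0⟩ := hTne
  -- the square root of `-1`
  obtain ⟨I, hI⟩ : ∃ z : Qb, z ^ 2 = -1 := IsAlgClosed.exists_pow_nat_eq (-1) (by norm_num)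
  obtain ⟨K, _, _, _, φ, hφ⟩ := big_field_sub (insert I
    (T'.biUnion fun v => Finset.univ.image fun ab : Fin M × Fin M => L v ab.1 ab.2))
  have hk : ∀ v a b, ∃ z : K, v ∈ T' → φ z = L v a b := by
    intro v a b
    by_cases hv : v ∈ T'
    · obtain ⟨z, hz⟩ := hφ (L v a b) (by
        refine Finset.mem_insert_of_mem (Finset.mem_biUnion.2 ⟨v, hv, ?_⟩)
        exact Finset.mem_image.2 ⟨(a, b), mem_univ _, rfl⟩)
      exact ⟨z, fun _ => hz⟩
    · exact ⟨0, fun h => absurd h hv⟩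
  choose kk hkk using hk
  have hi : ∃ z : K, z ^ 2 = -1 := by
    obtain ⟨z, hz⟩ := hφ I (Finset.mem_insert_self _ _)
    refine ⟨z, φ.injective ?_⟩
    rw [map_pow, hz, hI, map_neg, map_one]
  -- the absolute values
  choose g hg using fun u : Pl ℚ => exists_good (K := K) u
  have hσ : ∀ v : Option ℕ, ∃ σ : K ≃ₐ[ℚ] K, v ∈ T' → ∀ x, W v (φ x) = g (pl v) (σ x) := by
    intro v
    by_cases hv : v ∈ T'
    · obtain ⟨r0, hr0, hr1⟩ := ne_one_pl hS (hT' hv)
      have hfr : ∀ r : ℚ, ((W v).comp φ.injective) (algebraMap ℚ K r) = av (pl v) r := by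
        intro r
        show W v (φ (algebraMap ℚ K r)) = _
        rw [eq_ratCast, map_ratCast]
        exact W_rat hS hW (hT' hv) r
      obtain ⟨σ, hσ⟩ := conj_abs_sub ((W v).comp φ.injective) (g (pl v))
        (fun r => by rw [hfr r, (hg (pl v)).ext]) r0 hr0 (by rw [hfr]; exact hr1)
      exact ⟨σ, fun _ => hσ⟩
    · exact ⟨AlgEquiv.refl, fun h => absurd h hv⟩
  choose σ hσ using hσ
  obtain ⟨Z, hZ, hmain⟩ := schV (k := ℚ) (K := K) hi hM
    (fun l : {v // v ∈ T'} × Fin M => fun j => σ l.1 (kk l.1 l.2 j))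
  refine ⟨Z, hZ, ?_⟩
  obtain ⟨S', hS'1, hS'2⟩ : ∃ S' : Finset (Pl ℚ), (∀ u, u ∈ S' ↔ ∃ v ∈ T', pl v = u) ∧
      ∀ f : Pl ℚ → ℝ, ∑ u ∈ S', f u = ∑ v ∈ T', f (pl v) := by
    refine ⟨T'.image pl, fun u => Finset.mem_image, fun f => Finset.sum_image ?_⟩
    exact fun v hv w hw h => pl_inj S hS v w (hT' hv) (hT' hw) h
  obtain ⟨C, hC0, hC⟩ := hmain S' g (fun u _ => hg u) ε hε
  refine ⟨C, fun y hy hyZ hyL => ?_⟩
  have hdot : ∀ v, v ∈ T' → ∀ a : Fin M,
      dot (fun j => σ v (kk v a j)) (exv K fun j => ((y j : ℤ) : ℚ)) =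
        σ v (∑ j, kk v a j * ((y j : ℤ) : K)) := by
    intro v _ a
    unfold dot exv
    rw [map_sum]
    refine Finset.sum_congr rfl fun j _ => ?_
    rw [map_mul, map_intCast]
    simp
  have hWL : ∀ v, v ∈ T' → ∀ a : Fin M, W v (∑ j, L v a j * ((y j : ℤ) : Qb)) =
      g (pl v) (dot (fun j => σ v (kk v a j)) (exv K fun j => ((y j : ℤ) : ℚ))) := by
    intro v hv a
    rw [hdot v hv a, ← hσ v hv]
    congr 1
    rw [map_sum]
    refine Finset.sum_congr rfl fun j _ => ?_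
    rw [map_mul, hkk v a j hv, map_intCast]
  -- the choice of the bases
  have hβ : ∀ u : Pl ℚ, ∃ v : {v // v ∈ T'}, u ∈ S' → pl v = u := by
    intro u
    by_cases hu : u ∈ S'
    · obtain ⟨v, hv, hvu⟩ := (hS'1 u).1 hu
      exact ⟨⟨v, hv⟩, fun _ => hvu⟩
    · exact ⟨⟨v0, hv0⟩, fun h => absurd h hu⟩
  choose b hb using hβ
  have hbv : ∀ v : {v // v ∈ T'}, b (pl v) = v := by
    intro v
    have h1 := hb (pl v) ((hS'1 _).2 ⟨v, v.2, rfl⟩)
    exact Subtype.ext (pl_inj S hS _ _ (hT' (b (pl v)).2) (hT' v.2) h1)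
  have h1 := hC (fun j => ((y j : ℤ) : ℚ)) (by
      intro h0
      apply hy
      funext j
      have h9 : ((y j : ℤ) : ℚ) = 0 := congrFun h0 j
      show y j = 0
      exact_mod_cast h9) hyZ (by
      rintro ⟨v, a⟩ h0
      have h2 := hyL v v.2 a
      have h3 := hWL v v.2 a
      have h0' : dot (fun j => σ v (kk v a j)) (exv K fun j => ((y j : ℤ) : ℚ)) = 0 := h0
      rw [h0', map_zero] at h3
      exact h2 ((AbsoluteValue.eq_zero _).1 h3)) (fun u a => (b u, a)) (by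
      intro u hu h0
      have hv : (b u : Option ℕ) ∈ T' := (b u).2
      apply hL (b u) hv
      have e1 : (Matrix.of fun a : Fin M => fun j => σ (b u) (kk (b u) a j)) =
          (Matrix.of fun a j => kk (b u) a j).map (σ (b u)) := rfl
      have e2 : (L (b u)) = (Matrix.of fun a j => kk (b u) a j).map φ := by
        ext a j
        exact (hkk (b u) a j hv).symm
      have h0' : (Matrix.of fun a : Fin M => fun j => σ (b u) (kk (b u) a j)).det = 0 := h0
      have h4 : (Matrix.of fun a j => kk (b u) a j).det = 0 := by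
        rw [e1] at h0'
        have h5 : (σ (b u) : K →+* K) ((Matrix.of fun a j => kk (b u) a j).det) = 0 := by
          rw [RingHom.map_det]
          exact h0'
        exact (map_eq_zero _).1 h5
      rw [e2]
      have h6 : φ ((Matrix.of fun a j => kk (b u) a j).det) = 0 := by rw [h4, map_zero]
      rw [RingHom.map_det] at h6
      exact h6)
  rw [hS'2] at h1
  have h2 : ∀ v ∈ T', wt (pl v) * ∑ a, (Real.log (nrm (av (pl v)) fun j => ((y j : ℤ) : ℚ)) -
      Real.log (g (pl v) (dot (fun j => σ (b (pl v)) (kk (b (pl v)) a j))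
        (exv K fun j => ((y j : ℤ) : ℚ))))) =
      ∑ a, (Real.log (⨆ j, W v (y j : Qb)) - Real.log (W v (∑ j, L v a j * (y j : Qb)))) := by
    intro v hv
    rw [wt_pl, one_mul]
    refine Finset.sum_congr rfl fun a _ => ?_
    have h3 : b (pl v) = ⟨v, hv⟩ := hbv ⟨v, hv⟩
    rw [h3, ← hWL v hv a]
    have h4 : (⨆ j, W v (y j : Qb)) = nrm (av (pl v)) fun j => ((y j : ℤ) : ℚ) := by
      unfold nrm
      refine iSup_congr fun j => ?_
      have := W_rat hS hW (hT' hv) ((y j : ℤ) : ℚ)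
      rw [← this]
      push_cast
      rfl
    rw [h4]
  rw [← Finset.sum_congr rfl h2]
  refine h1.trans ?_
  have h5 := mul_le_mul_of_nonneg_left (logHeight_le y hy) (by positivity : (0 : ℝ) ≤ M + ε)
  linarith

end Pool.Agent.H933.QP
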