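import Pool.Agent.H933.QP.Alg
import Pool.Agent.H933.QP.Sub
import Pool.Graph.R_pool_sql_team_seeded_3dad9d7b.NH28.QP.ST
import Pool.Graph.R_pool_sql_team_seeded_3dad9d7b.NH28.QP.BDD

/-!
Monomials of degree `N` in three variables, the sums of the exponents, the matrix of the adapted
forms, and the local heights of the adapted forms.
-/

set_option autoImplicit false

namespace Pool.Agent.H933.QP

open MvPolynomial
open Pool.Agent.NH28.QP (Qb PQ mp Dc Hp Hx Prm ev Tp Gd nv lam)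
open Pool.Agent.NH28.QP.ST45 (yv ev_sum ev_mono)

/-- the exponents of degree `N` -/
def Ix (N : ℕ) : Finset (Fin 3 →₀ ℕ) := Finset.univ.finsuppAntidiag N

theorem mem_Ix {N : ℕ} {d : Fin 3 →₀ ℕ} : d ∈ Ix N ↔ d 0 + d 1 + d 2 = N := by
  unfold Ix
  rw [Finset.mem_finsuppAntidiag]
  simp [Fin.sum_univ_three]

theorem degree_eq (d : Fin 3 →₀ ℕ) : d.degree = d 0 + d 1 + d 2 := by
  rw [Finsupp.degree_eq_sum, Fin.sum_univ_three]

theorem sum_perm (N : ℕ) (σ : Equiv.Perm (Fin 3)) (i : Fin 3) :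
    ∑ d ∈ Ix N, d (σ i) = ∑ d ∈ Ix N, d i := by
  refine Finset.sum_bij' (fun d _ => Finsupp.equivMapDomain σ.symm d)
    (fun d _ => Finsupp.equivMapDomain σ d) ?_ ?_ ?_ ?_ ?_
  · intro d hd
    rw [mem_Ix] at hd ⊢
    have h := Equiv.sum_comp σ (fun j => d j)
    rw [Fin.sum_univ_three, Fin.sum_univ_three] at h
    simp only [Finsupp.equivMapDomain_apply, Equiv.symm_symm]
    omega
  · intro d hd
    rw [mem_Ix] at hd ⊢
    have h := Equiv.sum_comp σ.symm (fun j => d j)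
    rw [Fin.sum_univ_three, Fin.sum_univ_three] at h
    simp only [Finsupp.equivMapDomain_apply]
    omega
  · intro d _
    ext j
    simp [Finsupp.equivMapDomain_apply]
  · intro d _
    ext j
    simp [Finsupp.equivMapDomain_apply]
  · intro d _
    simp [Finsupp.equivMapDomain_apply]

theorem sum_eq (N : ℕ) (i : Fin 3) : 3 * ∑ d ∈ Ix N, d i = N * (Ix N).card := by
  have h1 : ∑ d ∈ Ix N, d 0 + ∑ d ∈ Ix N, d 1 + ∑ d ∈ Ix N, d 2 = N * (Ix N).card := by
    rw [← Finset.sum_add_distrib, ← Finset.sum_add_distrib]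
    rw [Finset.sum_congr rfl fun d hd => mem_Ix.1 hd, Finset.sum_const, smul_eq_mul, mul_comm]
  have h2 : ∀ j : Fin 3, ∑ d ∈ Ix N, d j = ∑ d ∈ Ix N, d i := by
    intro j
    have := sum_perm N (Equiv.swap i j) i
    rwa [Equiv.swap_apply_left] at this
  rw [h2 0, h2 1, h2 2] at h1
  omega

/-- the number of monomials -/
def Mn (N : ℕ) : ℕ := (Ix N).card

/-- the exponents -/
noncomputable def ex (N : ℕ) (i : Fin (Mn N)) : Fin 3 →₀ ℕ := ((Ix N).equivFin.symm i).1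

theorem ex_mem (N : ℕ) (i : Fin (Mn N)) : ex N i ∈ Ix N := ((Ix N).equivFin.symm i).2

theorem ex_inj (N : ℕ) : Function.Injective (ex N) := fun _ _ h =>
  (Ix N).equivFin.symm.injective (Subtype.ext h)

theorem ex_surj {N : ℕ} {d : Fin 3 →₀ ℕ} (hd : d ∈ Ix N) : ∃ i, ex N i = d :=
  ⟨(Ix N).equivFin ⟨d, hd⟩, by unfold ex; rw [Equiv.symm_apply_apply]⟩

theorem ex_sum (N : ℕ) {A : Type} [AddCommMonoid A] (f : (Fin 3 →₀ ℕ) → A) :
    ∑ i, f (ex N i) = ∑ d ∈ Ix N, f d := by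
  rw [← Finset.sum_coe_sort (Ix N) f]
  exact Equiv.sum_comp (Ix N).equivFin.symm (fun d => f d.1)

theorem Mn_pos (N : ℕ) : 0 < Mn N := by
  apply Finset.card_pos.2
  refine ⟨Finsupp.single 0 N, ?_⟩
  rw [mem_Ix]
  simp

/-- a form of degree `N` in terms of the monomials -/
theorem form_eq {k : Type} [CommRing k] {N : ℕ} {g : MvPolynomial (Fin 3) k}
    (hg : g.IsHomogeneous N) : g = ∑ i, monomial (ex N i) (g.coeff (ex N i)) := by
  ext d
  rw [coeff_sum]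
  simp only [coeff_monomial]
  by_cases hd : d ∈ Ix N
  · obtain ⟨i, rfl⟩ := ex_surj hd
    rw [Finset.sum_eq_single i]
    · rw [if_pos rfl]
    · intro j _ hj
      rw [if_neg fun h => hj (ex_inj N h)]
    · intro h
      exact absurd (Finset.mem_univ i) h
  · rw [Finset.sum_eq_zero]
    · by_contra h
      apply hd
      have h2 := hg h
      rw [Finsupp.weight_apply, Finsupp.sum_fintype _ _ (by simp), Fin.sum_univ_three] at h2
      rw [mem_Ix]
      simpa using h2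
    · intro j _
      rw [if_neg]
      rintro rfl
      exact hd (ex_mem N j)

theorem det_ne (N : ℕ) (P R : Qb × Qb) (h : dt P R ≠ 0) :
    (Matrix.of fun a i : Fin (Mn N) => (Bf P R (ex N a)).coeff (ex N i)).det ≠ 0 := by
  have h1 : ∀ i : Fin (Mn N), ∃ c : Fin (Mn N) → Qb,
      ∑ a, c a • Bf P R (ex N a) = monomial (ex N i) 1 := by
    intro i
    rw [← Submodule.mem_span_range_iff_exists_fun]
    have h2 := monomial_mem P R h (ex N i)
    have h3 : (X 0 ^ (ex N i) 0 * X 1 ^ (ex N i) 1 * X 2 ^ (ex N i) 2 : PQ) =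
        monomial (ex N i) 1 := by
      rw [monomial_eq, C_1, one_mul, Finsupp.prod_fintype _ _ (by simp), Fin.prod_univ_three]
    rw [h3, mem_Ix.1 (ex_mem N i)] at h2
    refine Submodule.span_mono ?_ h2
    rintro g ⟨m, hm, rfl⟩
    obtain ⟨a, ha⟩ := ex_surj (N := N) (d := Finsupp.equivFunOnFinite.symm m) (by
      rw [mem_Ix]
      exact hm)
    refine ⟨a, ?_⟩
    show Bf P R (ex N a) = Bf P R m
    rw [ha]
    rfl
  choose c hc using h1
  have h2 : (Matrix.of c) * (Matrix.of fun a i : Fin (Mn N) => (Bf P R (ex N a)).coeff (ex N i)) =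
      1 := by
    ext i j
    rw [Matrix.mul_apply]
    have h3 := congrArg (fun g => coeff (ex N j) g) (hc i)
    simp only [coeff_sum, coeff_smul, coeff_monomial, smul_eq_mul] at h3
    simp only [Matrix.of_apply]
    rw [h3, Matrix.one_apply]
    by_cases hij : i = j
    · rw [if_pos hij, if_pos (by rw [hij])]
    · rw [if_neg hij, if_neg fun h => hij (ex_inj N h)]
  intro h4
  have h5 := congrArg Matrix.det h2
  rw [Matrix.det_mul, h4, mul_zero, Matrix.det_one] at h5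
  exact zero_ne_one h5

theorem ev_mul (x : Fin 3 → ℤ) (f g : PQ) : ev x (f * g) = ev x f * ev x g := by
  unfold ev
  rw [map_mul]

theorem ev_pow (x : Fin 3 → ℤ) (f : PQ) (n : ℕ) : ev x (f ^ n) = ev x f ^ n := by
  unfold ev
  rw [map_pow]

theorem lam_mul (W : Option ℕ → AbsoluteValue Qb ℝ) (v : Option ℕ) (m n : ℕ) (f g : PQ)
    (x : Fin 3 → ℤ) (hf : ev x f ≠ 0) (hg : ev x g ≠ 0) :
    lam W v (m + n) (f * g) x = lam W v m f x + lam W v n g x := by
  unfold lam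
  rw [ev_mul, map_mul, Real.log_mul ((W v).ne_zero hf) ((W v).ne_zero hg)]
  push_cast
  ring

theorem lam_pow (W : Option ℕ → AbsoluteValue Qb ℝ) (v : Option ℕ) (m n : ℕ) (f : PQ)
    (x : Fin 3 → ℤ) :
    lam W v (m * n) (f ^ n) x = n * lam W v m f x := by
  unfold lam
  rw [ev_pow, map_pow, Real.log_pow]
  push_cast
  ring

theorem lam_Bf (W : Option ℕ → AbsoluteValue Qb ℝ) (v : Option ℕ) (N : ℕ) (P R : Qb × Qb)
    (m : Fin 3 → ℕ) (hm : m 0 + m 1 + m 2 = N)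
    (x : Fin 3 → ℤ) (hD : ev x Dc ≠ 0) (hs : ev x (sf P R) ≠ 0) (ht : ev x (Hp P) ≠ 0)
    (hu : ev x (Hp R) ≠ 0) :
    lam W v N (Bf P R m) x = ((m 0 / 2 : ℕ) : ℝ) * lam W v 2 Dc x +
      ((m 0 % 2 : ℕ) : ℝ) * lam W v 1 (sf P R) x + (m 1 : ℝ) * lam W v 1 (Hp P) x +
      (m 2 : ℝ) * lam W v 1 (Hp R) x := by
  have e : N = ((2 * (m 0 / 2) + 1 * (m 0 % 2)) + 1 * m 1) + 1 * m 2 := by omega
  have hp : ∀ (g : PQ) (n : ℕ), ev x g ≠ 0 → ev x (g ^ n) ≠ 0 := by
    intro g n h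
    rw [ev_pow]
    exact pow_ne_zero _ h
  have hml : ∀ (f g : PQ), ev x f ≠ 0 → ev x g ≠ 0 → ev x (f * g) ≠ 0 := by
    intro f g h1 h2
    rw [ev_mul]
    exact mul_ne_zero h1 h2
  unfold Bf
  rw [e, lam_mul W v _ _ _ _ x (hml _ _ (hml _ _ (hp _ _ hD) (hp _ _ hs)) (hp _ _ ht)) (hp _ _ hu),
    lam_mul W v _ _ _ _ x (hml _ _ (hp _ _ hD) (hp _ _ hs)) (hp _ _ ht),
    lam_mul W v _ _ _ _ x (hp _ _ hD) (hp _ _ hs), lam_pow, lam_pow, lam_pow, lam_pow]

/-- the norms of the vector of the monomials -/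
theorem nv_le {S : Finset ℕ} (hS : ∀ p ∈ S, p.Prime) {W : Option ℕ → AbsoluteValue Qb ℝ}
    (hW : Gd S W) {v : Option ℕ} (hv : v ∈ Tp S) {x : Fin 3 → ℤ} (hx : Prm x) (N : ℕ) :
    N * Real.log (nv v x) ≤ Real.log (⨆ i, W v (yv (ex N) x i : Qb)) := by
  obtain ⟨r, hr⟩ := Pool.Agent.NH28.QP.ST45.exists_nv hS hW hv hx
  have h0 := Pool.Agent.NH28.QP.ST45.nv_pos (v := v) hx
  rw [← Real.log_pow]
  refine Real.log_le_log (pow_pos h0 N) ?_
  obtain ⟨i, hi⟩ := ex_surj (N := N) (d := Finsupp.single r N) (by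
    rw [mem_Ix, ← degree_eq, Finsupp.degree_single])
  have h1 : yv (ex N) x i = x r ^ N := by
    unfold yv
    rw [hi, Finsupp.prod_single_index]
    rw [pow_zero]
  have h2 : W v ((yv (ex N) x i : ℤ) : Qb) = nv v x ^ N := by
    rw [h1, ← hr]
    push_cast
    rw [map_pow]
  rw [← h2]
  exact le_ciSup (f := fun i => W v (yv (ex N) x i : Qb)) (Set.finite_range _).bddAbove i

theorem Mn_sum1 (N : ℕ) (r : Fin 3) : ∑ i, ((ex N i r : ℕ) : ℝ) = N * Mn N / 3 := by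
  rw [← Nat.cast_sum]
  have h1 := ex_sum N (fun d => d r)
  have h2 := sum_eq N r
  rw [h1]
  have h3 : (3 : ℝ) * ((∑ d ∈ Ix N, d r : ℕ) : ℝ) = N * Mn N := by exact_mod_cast h2
  linarith

theorem Mn_sum2 (N : ℕ) : (N * Mn N / 6 - Mn N / 2 : ℝ) ≤ ∑ i, ((ex N i 0 / 2 : ℕ) : ℝ) := by
  have h1 : ∀ i : Fin (Mn N), (((ex N i 0 : ℕ) : ℝ) - 1) / 2 ≤ ((ex N i 0 / 2 : ℕ) : ℝ) := by
    intro i
    have h2 : ex N i 0 ≤ 2 * (ex N i 0 / 2) + 1 := by omega
    have h3 : ((ex N i 0 : ℕ) : ℝ) ≤ 2 * ((ex N i 0 / 2 : ℕ) : ℝ) + 1 := by exact_mod_cast h2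
    linarith
  have h2 := Finset.sum_le_sum fun i (_ : i ∈ Finset.univ) => h1 i
  rw [← Finset.sum_div, Finset.sum_sub_distrib, Mn_sum1, Finset.sum_const, Finset.card_univ,
    Fintype.card_fin] at h2
  simp only [nsmul_eq_mul, mul_one] at h2
  linarith

end Pool.Agent.H933.QP
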