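import Pool.Agent.H933.QP.Gen0

/-!
The subspace theorem for the adapted forms: the inequality off finitely many curves.
-/

set_option autoImplicit false

namespace Pool.Agent.H933.QP

open MvPolynomial
open Pool.Agent.NH28.QP (Qb PQ mp Dc Hp Hx Prm ev Tp Gd nv lam t_BDD S_SUB)
open Pool.Agent.NH28.QP.ST45 (yv ev_sum ev_mono)

/-- sets of points on a curve over `ℚ` -/
def Cv (A : Set (Fin 3 → ℤ)) : Prop := ∃ (G0 : MvPolynomial (Fin 3) ℚ) (t : ℕ),
  G0.IsHomogeneous t ∧ G0 ≠ 0 ∧ ∀ x ∈ A, ev x (mp G0) = 0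

theorem Cv.mono {A B : Set (Fin 3 → ℤ)} (h : Cv B) (hAB : A ⊆ B) : Cv A := by
  obtain ⟨G, t, h1, h2, h3⟩ := h
  exact ⟨G, t, h1, h2, fun x hx => h3 x (hAB hx)⟩

theorem Cv.union {A B : Set (Fin 3 → ℤ)} (hA : Cv A) (hB : Cv B) : Cv (A ∪ B) := by
  obtain ⟨G, t, h1, h2, h3⟩ := hA
  obtain ⟨G', t', h1', h2', h3'⟩ := hB
  refine ⟨G * G', t + t', h1.mul h1', mul_ne_zero h2 h2', ?_⟩
  have e : mp (G * G') = mp G * mp G' := by unfold mp; rw [map_mul]
  intro x hx
  rw [e, ev_mul]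
  rcases hx with hx | hx
  · rw [h3 x hx, zero_mul]
  · rw [h3' x hx, mul_zero]

theorem Cv_empty : Cv ∅ := ⟨1, 0, isHomogeneous_one _ _, one_ne_zero, fun x hx => absurd hx (by simp)⟩

theorem Cv_biUnion {ι : Type} (s : Finset ι) (A : ι → Set (Fin 3 → ℤ)) (h : ∀ i ∈ s, Cv (A i)) :
    Cv (⋃ i ∈ s, A i) := by
  classical
  induction s using Finset.induction_on with
  | empty => simpa using Cv_empty
  | insert a s ha ih =>
    rw [Finset.set_biUnion_insert]
    exact (h a (Finset.mem_insert_self _ _)).union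
      (ih fun i hi => h i (Finset.mem_insert_of_mem hi))

theorem Cv_lin (a b c : Qb) (h : a ≠ 0 ∨ b ≠ 0 ∨ c ≠ 0) :
    Cv {x | ev x (C a * X 0 + C b * X 1 + C c * X 2) = 0} := by
  obtain ⟨φ, hφ⟩ : ∃ φ : Module.Dual ℚ Qb, φ a ≠ 0 ∨ φ b ≠ 0 ∨ φ c ≠ 0 := by
    by_contra hc
    push Not at hc
    rcases h with h | h | h
    · exact h ((Module.forall_dual_apply_eq_zero_iff ℚ a).1 fun φ => (hc φ).1)
    · exact h ((Module.forall_dual_apply_eq_zero_iff ℚ b).1 fun φ => (hc φ).2.1)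
    · exact h ((Module.forall_dual_apply_eq_zero_iff ℚ c).1 fun φ => (hc φ).2.2)
  refine ⟨C (φ a) * X 0 + C (φ b) * X 1 + C (φ c) * X 2, 1, ?_, ?_, ?_⟩
  · have h : ∀ (a : ℚ) (i : Fin 3), (C a * X i : MvPolynomial (Fin 3) ℚ).IsHomogeneous 1 := by
      intro a i
      have := (isHomogeneous_C (Fin 3) a).mul (isHomogeneous_X ℚ i)
      simpa using this
    exact ((h _ 0).add (h _ 1)).add (h _ 2)
  · intro h0
    have h1 : ∀ x : Fin 3 → ℚ, φ a * x 0 + φ b * x 1 + φ c * x 2 = 0 := by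
      intro x
      have h2 := congrArg (fun g => MvPolynomial.eval x g) h0
      simpa using h2
    rcases hφ with h | h | h
    · apply h
      have := h1 ![1, 0, 0]
      simpa using this
    · apply h
      have := h1 ![0, 1, 0]
      simpa using this
    · apply h
      have := h1 ![0, 0, 1]
      simpa using this
  · intro x hx
    have hx' : a * ((x 0 : ℤ) : Qb) + b * ((x 1 : ℤ) : Qb) + c * ((x 2 : ℤ) : Qb) = 0 := by
      have h2 : ev x (C a * X 0 + C b * X 1 + C c * X 2) = 0 := hx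
      unfold ev at h2
      simpa using h2
    have h3 : ∀ (a : Qb) (n : ℤ), φ (a * (n : Qb)) = (n : ℚ) * φ a := by
      intro a n
      have : a * (n : Qb) = (n : ℚ) • a := by
        rw [Algebra.smul_def, map_intCast, mul_comm]
      rw [this, map_smul, smul_eq_mul]
    have h4 := congrArg φ hx'
    rw [map_add, map_add, h3, h3, h3, map_zero] at h4
    have h5 := congrArg (algebraMap ℚ Qb) h4
    unfold ev mp
    simp only [map_add, map_mul, map_X, map_C, eval_X, eval_C, map_zero, map_intCast] at h5 ⊢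
    linear_combination h5

theorem Cv_Z (N : ℕ) (z : Fin (Mn N) → ℚ) (hz : z ≠ 0) :
    Cv {x | ∑ j, z j * (yv (ex N) x j : ℚ) = 0} := by
  refine ⟨∑ i, monomial (ex N i) (z i), N, ?_, ?_, ?_⟩
  · exact IsHomogeneous.sum _ _ _ fun i _ => isHomogeneous_monomial _ (by
      rw [degree_eq]; exact mem_Ix.1 (ex_mem N i))
  · intro h0
    apply hz
    funext i
    have h1 := congrArg (fun g => coeff (ex N i) g) h0
    simp only [coeff_sum, coeff_monomial, coeff_zero] at h1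
    rw [Finset.sum_eq_single i] at h1
    · rw [if_pos rfl] at h1
      exact h1
    · intro j _ hj
      rw [if_neg fun h => hj (ex_inj N h)]
    · intro h
      exact absurd (Finset.mem_univ i) h
  · intro x hx
    have e : mp (∑ i, monomial (ex N i) (z i)) =
        ∑ i, monomial (ex N i) (algebraMap ℚ Qb (z i)) := by
      unfold mp
      rw [map_sum]
      exact Finset.sum_congr rfl fun i _ => map_monomial _ _ _
    rw [e, ev_sum]
    have h1 : ∑ j, z j * (yv (ex N) x j : ℚ) = 0 := hx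
    have h2 := congrArg (algebraMap ℚ Qb) h1
    rw [map_sum, map_zero] at h2
    rw [← h2]
    refine Finset.sum_congr rfl fun j _ => ?_
    rw [map_mul, map_intCast]

theorem lin_of_dt {P R : Qb × Qb} (h : dt P R ≠ 0) : (P.1 ≠ 0 ∨ P.2 ≠ 0) ∧ (R.1 ≠ 0 ∨ R.2 ≠ 0) := by
  constructor
  · by_contra hc
    push Not at hc
    apply h
    unfold dt
    rw [hc.1, hc.2]
    ring
  · by_contra hc
    push Not at hc
    apply h
    unfold dt
    rw [hc.1, hc.2]
    ring

theorem Cv_Hp {P : Qb × Qb} (h : P.1 ≠ 0 ∨ P.2 ≠ 0) : Cv {x | ev x (Hp P) = 0} := by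
  unfold Hp
  apply Cv_lin
  rcases h with h | h
  · exact Or.inr (Or.inr (pow_ne_zero 2 h))
  · exact Or.inl (pow_ne_zero 2 h)

theorem Cv_sf {P R : Qb × Qb} (h : dt P R ≠ 0) : Cv {x | ev x (sf P R) = 0} := by
  unfold sf
  apply Cv_lin
  by_contra hc
  push Not at hc
  obtain ⟨h0, h1, h2⟩ := hc
  apply pow_ne_zero 2 h
  unfold dt
  linear_combination (P.1 * R.2 + P.2 * R.1) * h1 - P.2 * R.2 * h2 - P.1 * R.1 * h0

/-- the absolute values of an integer at finitely many primes -/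
theorem prod_int (S : Finset ℕ) (hS : ∀ p ∈ S, p.Prime) (m : ℤ) (hm : m ≠ 0) :
    0 ≤ Real.log |(m : ℝ)| + ∑ p ∈ S, Real.log ((padicNorm p (m : ℚ) : ℚ) : ℝ) := by
  have h1 : ∏ p ∈ S, p ^ padicValNat p m.natAbs ∣ m.natAbs := by
    refine Finset.prod_dvd_of_isRelPrime (fun p hp q hq hne => ?_) fun p hp => pow_padicValNat_dvd
    show IsRelPrime (p ^ padicValNat p m.natAbs) (q ^ padicValNat q m.natAbs)
    rw [← Nat.coprime_iff_isRelPrime]
    exact Nat.Coprime.pow _ _ ((Nat.coprime_primes (hS p hp) (hS q hq)).2 hne)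
  have h2 : ∏ p ∈ S, p ^ padicValNat p m.natAbs ≤ m.natAbs :=
    Nat.le_of_dvd (Int.natAbs_pos.2 hm) h1
  have h3 : (∏ p ∈ S, (p : ℝ) ^ padicValNat p m.natAbs) ≤ |(m : ℝ)| := by
    have h4 : ((∏ p ∈ S, p ^ padicValNat p m.natAbs : ℕ) : ℝ) ≤ (m.natAbs : ℝ) := by
      exact_mod_cast h2
    rw [Nat.cast_natAbs] at h4
    push_cast at h4
    exact h4
  have hp0 : ∀ p ∈ S, (0 : ℝ) < (p : ℝ) ^ padicValNat p m.natAbs := fun p hp =>
    pow_pos (by exact_mod_cast (hS p hp).pos) _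
  have h4 := Real.log_le_log (Finset.prod_pos hp0) h3
  rw [Real.log_prod fun p hp => (hp0 p hp).ne'] at h4
  have h5 : ∑ p ∈ S, Real.log ((padicNorm p (m : ℚ) : ℚ) : ℝ) =
      - ∑ p ∈ S, Real.log ((p : ℝ) ^ padicValNat p m.natAbs) := by
    rw [← Finset.sum_neg_distrib]
    refine Finset.sum_congr rfl fun p hp => ?_
    have : Fact p.Prime := ⟨hS p hp⟩
    rw [padicNorm.eq_zpow_of_nonzero (by exact_mod_cast hm), padicValRat.of_int, padicValInt,
      zpow_neg, zpow_natCast]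
    push_cast
    rw [Real.log_inv]
  rw [h5]
  linarith

theorem ev_Dc (x : Fin 3 → ℤ) : ev x Dc = ((x 1 ^ 2 - 4 * (x 0 * x 2) : ℤ) : Qb) := by
  unfold ev Dc
  have h4 : (4 : PQ) = C 4 := by rw [map_ofNat]
  rw [h4]
  simp only [map_sub, map_mul, map_pow, eval_X, eval_C]
  push_cast
  ring

/-- sums over the places -/
theorem sum_Tp (S : Finset ℕ) (f : Option ℕ → ℝ) :
    ∑ v ∈ Tp S, f v = f none + ∑ p ∈ S, f (some p) := by
  classical
  unfold Tp
  rw [Finset.sum_insert (by simp), Finset.sum_image fun a _ b _ h => Option.some.inj h]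

theorem sum_Dc {S : Finset ℕ} (hS : ∀ p ∈ S, p.Prime) {W : Option ℕ → AbsoluteValue Qb ℝ}
    (hW : Gd S W) (x : Fin 3 → ℤ) (hD : ev x Dc ≠ 0) :
    ∑ v ∈ Tp S, lam W v 2 Dc x ≤ 2 * Real.log (Hx x) := by
  rw [sum_Tp]
  set m : ℤ := x 1 ^ 2 - 4 * (x 0 * x 2) with hm
  have hm0 : m ≠ 0 := by
    intro h
    apply hD
    rw [ev_Dc, ← hm, h, Int.cast_zero]
  have h1 := prod_int S hS m hm0
  have h2 : lam W none 2 Dc x = 2 * Real.log (Hx x) - Real.log |(m : ℝ)| := by
    unfold lam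
    rw [ev_Dc, ← hm]
    have h3 := hW.inf (m : ℚ)
    rw [map_intCast] at h3
    rw [h3, Rat.cast_intCast]
    show ((2 : ℕ) : ℝ) * Real.log (Hx x) - _ = _
    norm_num
  have h3 : ∀ p ∈ S, lam W (some p) 2 Dc x = - Real.log ((padicNorm p (m : ℚ) : ℚ) : ℝ) := by
    intro p hp
    unfold lam
    rw [ev_Dc, ← hm]
    have h3 := hW.fin p hp (m : ℚ)
    rw [map_intCast] at h3
    rw [h3]
    show ((2 : ℕ) : ℝ) * Real.log 1 - _ = _
    rw [Real.log_one]
    ring
  rw [h2, Finset.sum_congr rfl h3, Finset.sum_neg_distrib]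
  linarith

end Pool.Agent.H933.QP
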