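import Pool.Agent.H933.QP.Gen1

/-!
The inequality off a curve, for a fixed choice of pairs of points.
-/

set_option autoImplicit false

namespace Pool.Agent.H933.QP

open MvPolynomial
open Pool.Agent.NH28.QP (Qb PQ mp Dc Hp Hx Prm ev Tp Gd nv lam t_BDD S_SUB)
open Pool.Agent.NH28.QP.ST45 (yv ev_sum ev_mono Hx_yv prm_ne)

theorem yv_ne {N : ℕ} {x : Fin 3 → ℤ} (hx : Prm x) : yv (ex N) x ≠ 0 := by
  obtain ⟨r, hr⟩ := Function.ne_iff.1 (prm_ne hx)
  intro h0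
  obtain ⟨i, hi⟩ := ex_surj (N := N) (d := Finsupp.single r N) (by
    rw [mem_Ix, ← degree_eq, Finsupp.degree_single])
  have h1 : yv (ex N) x i = x r ^ N := by
    unfold yv
    rw [hi, Finsupp.prod_single_index]
    rw [pow_zero]
  have h2 := congrFun h0 i
  rw [h1] at h2
  exact pow_ne_zero N hr h2

theorem gen {S : Finset ℕ} (hS : ∀ p ∈ S, p.Prime) {W : Option ℕ → AbsoluteValue Qb ℝ}
    (hW : Gd S W) (P R : Option ℕ → Qb × Qb) (hPR : ∀ v ∈ Tp S, dt (P v) (R v) ≠ 0)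
    (ε : ℝ) (hε : 0 < ε) : ∃ A : Set (Fin 3 → ℤ), Cv A ∧ ∃ c : ℝ, ∀ x : Fin 3 → ℤ, Prm x →
      ev x Dc ≠ 0 → x ∉ A →
      ∑ v ∈ Tp S, (lam W v 2 Dc x + lam W v 1 (Hp (P v)) x + lam W v 1 (Hp (R v)) x) ≤
        (4 + ε) * Real.log (Hx x) + c := by
  classical
  -- the degree
  obtain ⟨N, hN⟩ := exists_nat_gt (6 / ε)
  have hN0 : 0 < N := by
    have : (0 : ℝ) < N := lt_trans (by positivity) hN
    exact_mod_cast this
  have hNr : (0 : ℝ) < N := by exact_mod_cast hN0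
  set M : ℕ := Mn N with hM
  have hM0 : 0 < M := Mn_pos N
  have hMr : (0 : ℝ) < M := by exact_mod_cast hM0
  set δ : ℝ := M * ε / 6 with hδ
  have hδ0 : 0 < δ := by positivity
  obtain ⟨Z, hZ0, c0, hc0⟩ := t_SUB S hS W hW (Tp S) (Finset.Subset.refl _) M hM0
    (fun v => Matrix.of fun a i : Fin (Mn N) => (Bf (P v) (R v) (ex N a)).coeff (ex N i))
    (fun v hv => det_ne N _ _ (hPR v hv)) δ hδ0
  -- bounds from below
  have hb : ∀ v, ∃ c : ℝ, 0 ≤ c ∧ (v ∈ Tp S → ∀ x, Prm x →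
      (ev x Dc ≠ 0 → -c ≤ lam W v 2 Dc x) ∧
      (ev x (sf (P v) (R v)) ≠ 0 → -c ≤ lam W v 1 (sf (P v) (R v)) x)) := by
    intro v
    by_cases hv : v ∈ Tp S
    · obtain ⟨K1, c1, _, h1, h2⟩ := t_BDD S hS W hW v hv 2 Dc hom_Dc
      obtain ⟨K3, c3, _, h3, h4⟩ := t_BDD S hS W hW v hv 1 _ (hom_sf (P v) (R v))
      refine ⟨max c1 c3, le_max_of_le_left h1, fun _ x hx => ⟨fun h => ?_, fun h => ?_⟩⟩
      · exact (neg_le_neg (le_max_left _ _)).trans (h2 x hx h).1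
      · exact (neg_le_neg (le_max_right _ _)).trans (h4 x hx h).1
    · exact ⟨0, le_refl _, fun h => absurd h hv⟩
  choose cb hcb0 hcb using hb
  refine ⟨(⋃ z ∈ Z, {x | ∑ j, z j * (yv (ex N) x j : ℚ) = 0}) ∪
    ((⋃ v ∈ Tp S, {x | ev x (Hp (P v)) = 0}) ∪ ((⋃ v ∈ Tp S, {x | ev x (Hp (R v)) = 0}) ∪
      (⋃ v ∈ Tp S, {x | ev x (sf (P v) (R v)) = 0}))), ?_, ?_⟩
  · refine (Cv_biUnion _ _ fun z hz => Cv_Z N z (hZ0 z hz)).union
      ((Cv_biUnion _ _ fun v hv => Cv_Hp (lin_of_dt (hPR v hv)).1).union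
      ((Cv_biUnion _ _ fun v hv => Cv_Hp (lin_of_dt (hPR v hv)).2).union
      (Cv_biUnion _ _ fun v hv => Cv_sf (hPR v hv))))
  set B : ℝ := ∑ v ∈ Tp S, cb v with hB
  have hB0 : 0 ≤ B := Finset.sum_nonneg fun v _ => hcb0 v
  refine ⟨(c0 + 3 * (N * M) * B) / (N * M / 3), fun x hx hD hxA => ?_⟩
  rw [Set.mem_union, Set.mem_union, Set.mem_union] at hxA
  push Not at hxA
  obtain ⟨hxZ, hxP, hxR, hxs⟩ := hxA
  simp only [Set.mem_iUnion, Set.mem_ofPred_eq, not_exists] at hxZ hxP hxR hxs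
  have hev : ∀ v, ∀ a : Fin (Mn N), ev x (Bf (P v) (R v) (ex N a)) =
      ∑ j, (Bf (P v) (R v) (ex N a)).coeff (ex N j) * (yv (ex N) x j : Qb) := by
    intro v a
    have h1 : (Bf (P v) (R v) (ex N a)).IsHomogeneous N := by
      have h2 := hom_Bf (P v) (R v) (ex N a)
      rwa [mem_Ix.1 (ex_mem N a)] at h2
    conv_lhs => rw [form_eq h1]
    exact ev_sum _ x _
  have hevne : ∀ v ∈ Tp S, ∀ a : Fin (Mn N), ev x (Bf (P v) (R v) (ex N a)) ≠ 0 := by
    intro v hv a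
    unfold Bf
    rw [ev_mul, ev_mul, ev_mul, ev_pow, ev_pow, ev_pow, ev_pow]
    exact mul_ne_zero (mul_ne_zero (mul_ne_zero (pow_ne_zero _ hD) (pow_ne_zero _ (hxs v hv)))
      (pow_ne_zero _ (hxP v hv))) (pow_ne_zero _ (hxR v hv))
  have h1 := hc0 (yv (ex N) x) (yv_ne hx) hxZ (fun v hv a => by
    have h2 := hevne v hv a
    rw [hev v a] at h2
    exact h2)
  have hH1 : 1 ≤ Hx x := Pool.Agent.NH28.QP.ST45.one_le_Hx (prm_ne hx)
  have hH0 : 0 ≤ Real.log (Hx x) := Real.log_nonneg hH1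
  have h2 : Real.log (Hx (yv (ex N) x)) ≤ N * Real.log (Hx x) := by
    rw [← Real.log_pow]
    refine Real.log_le_log ?_ (Hx_yv (fun i => by
      rw [degree_eq]; exact mem_Ix.1 (ex_mem N i)) x)
    exact lt_of_lt_of_le one_pos
      (Pool.Agent.NH28.QP.ST45.one_le_Hx (yv_ne (N := N) hx))
  -- the local terms
  have h3 : ∀ v ∈ Tp S, (N * M / 6 - M / 2 : ℝ) * lam W v 2 Dc x +
      (N * M / 3 : ℝ) * (lam W v 1 (Hp (P v)) x + lam W v 1 (Hp (R v)) x) - 3 * (N * M) * cb v ≤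
      ∑ a, (Real.log (⨆ j, W v (yv (ex N) x j : Qb)) -
        Real.log (W v (∑ j, (Matrix.of fun a i : Fin (Mn N) =>
          (Bf (P v) (R v) (ex N a)).coeff (ex N i)) a j * (yv (ex N) x j : Qb)))) := by
    intro v hv
    obtain ⟨hlD, hls⟩ := hcb v hv x hx
    have hlD := hlD hD
    have hls := hls (hxs v hv)
    have h4 : ∀ a : Fin (Mn N), ((ex N a 0 / 2 : ℕ) : ℝ) * lam W v 2 Dc x +
        ((ex N a 0 % 2 : ℕ) : ℝ) * lam W v 1 (sf (P v) (R v)) x +
        (ex N a 1 : ℝ) * lam W v 1 (Hp (P v)) x + (ex N a 2 : ℝ) * lam W v 1 (Hp (R v)) x ≤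
        (Real.log (⨆ j, W v (yv (ex N) x j : Qb)) -
        Real.log (W v (∑ j, (Matrix.of fun a i : Fin (Mn N) =>
          (Bf (P v) (R v) (ex N a)).coeff (ex N i)) a j * (yv (ex N) x j : Qb)))) := by
      intro a
      rw [← lam_Bf W v N (P v) (R v) (ex N a) (mem_Ix.1 (ex_mem N a)) x hD (hxs v hv) (hxP v hv)
        (hxR v hv)]
      unfold lam
      rw [hev v a]
      have := nv_le hS hW hv hx N
      simp only [Matrix.of_apply]
      linarith
    have h5 := Finset.sum_le_sum fun a (_ : a ∈ Finset.univ) => h4 a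
    refine le_trans ?_ h5
    rw [Finset.sum_add_distrib, Finset.sum_add_distrib, Finset.sum_add_distrib, ← Finset.sum_mul,
      ← Finset.sum_mul, ← Finset.sum_mul, ← Finset.sum_mul, Mn_sum1, Mn_sum1]
    have h6 := Mn_sum2 N
    have h7 : (∑ a : Fin (Mn N), ((ex N a 0 / 2 : ℕ) : ℝ)) ≤ N * M := by
      have h8 : ∀ a : Fin (Mn N), ((ex N a 0 / 2 : ℕ) : ℝ) ≤ N := by
        intro a
        have := mem_Ix.1 (ex_mem N a)
        have h9 : ex N a 0 / 2 ≤ N := by omega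
        exact_mod_cast h9
      have h9 := Finset.sum_le_sum fun a (_ : a ∈ Finset.univ) => h8 a
      rw [Finset.sum_const, Finset.card_univ, Fintype.card_fin, nsmul_eq_mul] at h9
      linarith
    have h8 : (∑ a : Fin (Mn N), ((ex N a 0 % 2 : ℕ) : ℝ)) ≤ N * M := by
      have h8 : ∀ a : Fin (Mn N), ((ex N a 0 % 2 : ℕ) : ℝ) ≤ N := by
        intro a
        have h9 : ex N a 0 % 2 ≤ N := by omega
        exact_mod_cast h9
      have h9 := Finset.sum_le_sum fun a (_ : a ∈ Finset.univ) => h8 a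
      rw [Finset.sum_const, Finset.card_univ, Fintype.card_fin, nsmul_eq_mul] at h9
      linarith
    have h9 : (0 : ℝ) ≤ ∑ a : Fin (Mn N), ((ex N a 0 % 2 : ℕ) : ℝ) :=
      Finset.sum_nonneg fun _ _ => Nat.cast_nonneg _
    have hcv := hcb0 v
    have hNM : (0 : ℝ) ≤ N * M := by positivity
    -- the discriminant
    have h10 : (N * M / 6 - M / 2 : ℝ) * lam W v 2 Dc x - 2 * (N * M * cb v) ≤
        (∑ a : Fin (Mn N), ((ex N a 0 / 2 : ℕ) : ℝ)) * lam W v 2 Dc x := by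
      have h11 := mul_nonneg (sub_nonneg.2 h6) (by linarith : 0 ≤ lam W v 2 Dc x + cb v)
      have h12 := mul_nonneg (sub_nonneg.2 h7) hcv
      have h13 : (0 : ℝ) ≤ N * M / 6 - M / 2 + N * M := by
        have hN1 : (1 : ℝ) ≤ N := by exact_mod_cast hN0
        have := mul_nonneg (sub_nonneg.2 hN1) hMr.le
        linarith
      have h14 := mul_nonneg h13 hcv
      linarith
    have h11 : - (N * M * cb v) ≤ (∑ a : Fin (Mn N), ((ex N a 0 % 2 : ℕ) : ℝ)) *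
        lam W v 1 (sf (P v) (R v)) x := by
      have h12 := mul_nonneg h9 (by linarith : 0 ≤ lam W v 1 (sf (P v) (R v)) x + cb v)
      have h13 := mul_nonneg (sub_nonneg.2 h8) hcv
      nlinarith
    linarith
  have h4 := Finset.sum_le_sum h3
  rw [Finset.sum_sub_distrib, Finset.sum_add_distrib, ← Finset.mul_sum, ← Finset.mul_sum,
    ← Finset.mul_sum, ← hB] at h4
  have h5 := sum_Dc hS hW x hD
  have h6 := h4.trans h1
  have h7 := mul_le_mul_of_nonneg_left h2 (by positivity : (0 : ℝ) ≤ M + δ)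
  rw [Finset.sum_congr rfl fun v _ => add_assoc (lam W v 2 Dc x) _ _, Finset.sum_add_distrib]
  set sD := ∑ v ∈ Tp S, lam W v 2 Dc x with hsD
  set sA := ∑ v ∈ Tp S, (lam W v 1 (Hp (P v)) x + lam W v 1 (Hp (R v)) x) with hsA
  set h := Real.log (Hx x) with hh
  have h8 : (N * M / 3 : ℝ) * (sD + sA) ≤ (N * M / 3 : ℝ) * ((4 + ε) * h) +
      (c0 + 3 * (N * M) * B) := by
    have h9 : (N * M / 6 + M / 2 : ℝ) * sD ≤ (N * M / 6 + M / 2 : ℝ) * (2 * h) :=
      mul_le_mul_of_nonneg_left h5 (by positivity)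
    have h10 : (6 : ℝ) ≤ N * ε := by
      have := (div_lt_iff₀ hε).1 hN
      linarith
    have h11 : 0 ≤ (M * (N * ε - 6) / 6 : ℝ) * h := by
      have : (0 : ℝ) ≤ M * (N * ε - 6) / 6 :=
        div_nonneg (mul_nonneg hMr.le (by linarith)) (by norm_num)
      exact mul_nonneg this hH0
    have h12 : (M + δ) * (N * h) = (M * N + M * N * ε / 6) * h := by
      rw [hδ]
      ring
    rw [h12] at h7
    nlinarith
  have hNM3 : (0 : ℝ) < N * M / 3 := by positivity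
  rw [← sub_le_iff_le_add', le_div_iff₀ hNM3]
  linarith

end Pool.Agent.H933.QP
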