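import Pool.Agent.H933.QP.Gen2

/-!
The inequality off a curve, for all points.
-/

set_option autoImplicit false

namespace Pool.Agent.H933.QP

open MvPolynomial
open Pool.Agent.NH28.QP (Qb PQ mp Dc Hp Hx Prm ev Tp Gd nv lam t_BDD S_SUB)

theorem three_lin (P R Q : Qb × Qb) (r : Fin 3) : ∃ α β γ : Qb,
    C (dt P R * dt R Q * dt P Q) * X r = C α * Hp P + C β * Hp R + C γ * Hp Q := by
  fin_cases r
  · refine ⟨R.1 * Q.1 * dt R Q, -(P.1 * Q.1 * dt P Q), P.1 * R.1 * dt P R, ?_⟩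
    show C (dt P R * dt R Q * dt P Q) * X 0 = _
    unfold Hp dt
    simp only [map_mul, map_sub, map_neg, map_pow]
    ring
  · refine ⟨-((R.2 * Q.1 + R.1 * Q.2) * dt R Q), (P.2 * Q.1 + P.1 * Q.2) * dt P Q,
      -((P.2 * R.1 + P.1 * R.2) * dt P R), ?_⟩
    show C (dt P R * dt R Q * dt P Q) * X 1 = _
    unfold Hp dt
    simp only [map_mul, map_sub, map_neg, map_pow, map_add]
    ring
  · refine ⟨R.2 * Q.2 * dt R Q, -(P.2 * Q.2 * dt P Q), P.2 * R.2 * dt P R, ?_⟩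
    show C (dt P R * dt R Q * dt P Q) * X 2 = _
    unfold Hp dt
    simp only [map_mul, map_sub, map_neg, map_pow]
    ring

theorem three {S : Finset ℕ} (hS : ∀ p ∈ S, p.Prime) {W : Option ℕ → AbsoluteValue Qb ℝ}
    (hW : Gd S W) {v : Option ℕ} (hv : v ∈ Tp S) (P R Q : Qb × Qb) (h1 : dt P R ≠ 0)
    (h2 : dt R Q ≠ 0) (h3 : dt P Q ≠ 0) : ∃ c : ℝ, ∀ x : Fin 3 → ℤ, Prm x →
      ev x (Hp P) ≠ 0 → ev x (Hp R) ≠ 0 → ev x (Hp Q) ≠ 0 →
      lam W v 1 (Hp P) x ≤ c ∨ lam W v 1 (Hp R) x ≤ c ∨ lam W v 1 (Hp Q) x ≤ c := by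
  choose α β γ hl using three_lin P R Q
  set κ := dt P R * dt R Q * dt P Q with hκ
  have hκ0 : κ ≠ 0 := mul_ne_zero (mul_ne_zero h1 h2) h3
  have hκ1 : 0 < W v κ := (W v).pos hκ0
  set A : ℝ := 1 + ∑ r, (W v (α r) + W v (β r) + W v (γ r)) with hA
  have hs : 0 ≤ ∑ r, (W v (α r) + W v (β r) + W v (γ r)) := Finset.sum_nonneg fun r _ =>
    add_nonneg (add_nonneg ((W v).nonneg _) ((W v).nonneg _)) ((W v).nonneg _)
  have hA0 : 0 < A := by linarith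
  refine ⟨Real.log (A / W v κ), fun x hx hP hR hQ => ?_⟩
  by_contra hc
  push Not at hc
  obtain ⟨hc1, hc2, hc3⟩ := hc
  obtain ⟨r, hr⟩ := Pool.Agent.NH28.QP.ST45.exists_nv hS hW hv hx
  have hn0 : 0 < nv v x := Pool.Agent.NH28.QP.ST45.nv_pos hx
  have key : ∀ g : PQ, ev x g ≠ 0 → Real.log (A / W v κ) < lam W v 1 g x →
      A * W v (ev x g) < W v κ * nv v x := by
    intro g hg h
    have hg0 := (W v).pos hg
    unfold lam at h
    rw [Real.log_div hA0.ne' hκ1.ne', Nat.cast_one, one_mul] at h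
    have h4 : Real.log (A * W v (ev x g)) < Real.log (W v κ * nv v x) := by
      rw [Real.log_mul hA0.ne' hg0.ne', Real.log_mul hκ1.ne' hn0.ne']
      linarith
    exact (Real.log_lt_log_iff (by positivity) (by positivity)).1 h4
  have k1 := key _ hP hc1
  have k2 := key _ hR hc2
  have k3 := key _ hQ hc3
  have h4 : κ * ((x r : ℤ) : Qb) = α r * ev x (Hp P) + β r * ev x (Hp R) + γ r * ev x (Hp Q) := by
    have h5 := congrArg (ev x) (hl r)
    unfold ev at h5 ⊢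
    simpa using h5
  have h5 : W v κ * nv v x ≤ W v (α r) * W v (ev x (Hp P)) + W v (β r) * W v (ev x (Hp R)) +
      W v (γ r) * W v (ev x (Hp Q)) := by
    rw [← hr, ← map_mul, h4, ← map_mul, ← map_mul, ← map_mul]
    exact ((W v).add_le _ _).trans (add_le_add_left ((W v).add_le _ _) _)
  set m := max (W v (ev x (Hp P))) (max (W v (ev x (Hp R))) (W v (ev x (Hp Q)))) with hm
  have hm0 : 0 ≤ m := le_max_of_le_left ((W v).nonneg _)
  have h6 : A * m < W v κ * nv v x := by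
    rcases max_choice (W v (ev x (Hp P))) (max (W v (ev x (Hp R))) (W v (ev x (Hp Q)))) with h | h
    · rw [hm, h]; exact k1
    · rw [hm, h]
      rcases max_choice (W v (ev x (Hp R))) (W v (ev x (Hp Q))) with h | h
      · rw [h]; exact k2
      · rw [h]; exact k3
  have h7 : W v (α r) * W v (ev x (Hp P)) ≤ W v (α r) * m :=
    mul_le_mul_of_nonneg_left (le_max_left _ _) ((W v).nonneg _)
  have h8 : W v (β r) * W v (ev x (Hp R)) ≤ W v (β r) * m :=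
    mul_le_mul_of_nonneg_left ((le_max_left _ _).trans (le_max_right _ _)) ((W v).nonneg _)
  have h9 : W v (γ r) * W v (ev x (Hp Q)) ≤ W v (γ r) * m :=
    mul_le_mul_of_nonneg_left ((le_max_right _ _).trans (le_max_right _ _)) ((W v).nonneg _)
  have h10 := Finset.single_le_sum (f := fun r => W v (α r) + W v (β r) + W v (γ r))
    (fun r _ => add_nonneg (add_nonneg ((W v).nonneg _) ((W v).nonneg _)) ((W v).nonneg _))
    (Finset.mem_univ r)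
  have h11 : (W v (α r) + W v (β r) + W v (γ r)) * m ≤ A * m := by
    refine mul_le_mul_of_nonneg_right ?_ hm0
    have h12 : W v (α r) + W v (β r) + W v (γ r) ≤ ∑ r, (W v (α r) + W v (β r) + W v (γ r)) := h10
    linarith
  linarith

/-- the local lemma -/
theorem loc {S : Finset ℕ} (hS : ∀ p ∈ S, p.Prime) {W : Option ℕ → AbsoluteValue Qb ℝ}
    (hW : Gd S W) {v : Option ℕ} (hv : v ∈ Tp S) {ι : Type} [Fintype ι] (Q : ι → Qb × Qb)
    (hQ : ∀ l l', l ≠ l' → dt (Q l) (Q l') ≠ 0) (h2 : 2 ≤ Fintype.card ι) :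
    ∃ c : ℝ, 0 ≤ c ∧ ∀ x : Fin 3 → ℤ, Prm x → (∀ l, ev x (Hp (Q l)) ≠ 0) →
      ∃ l l', l ≠ l' ∧ ∑ i, lam W v 1 (Hp (Q i)) x ≤
        lam W v 1 (Hp (Q l)) x + lam W v 1 (Hp (Q l')) x + c := by
  classical
  have h1 : ∀ t : ι × ι × ι, ∃ c : ℝ, 0 ≤ c ∧ (t.1 ≠ t.2.1 → t.2.1 ≠ t.2.2 → t.1 ≠ t.2.2 →
      ∀ x : Fin 3 → ℤ, Prm x → (∀ l, ev x (Hp (Q l)) ≠ 0) →
      lam W v 1 (Hp (Q t.1)) x ≤ c ∨ lam W v 1 (Hp (Q t.2.1)) x ≤ c ∨
        lam W v 1 (Hp (Q t.2.2)) x ≤ c) := by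
    intro t
    by_cases ht : t.1 ≠ t.2.1 ∧ t.2.1 ≠ t.2.2 ∧ t.1 ≠ t.2.2
    · obtain ⟨c, hc⟩ := three hS hW hv (Q t.1) (Q t.2.1) (Q t.2.2) (hQ _ _ ht.1) (hQ _ _ ht.2.1)
        (hQ _ _ ht.2.2)
      refine ⟨max c 0, le_max_right _ _, fun _ _ _ x hx hne => ?_⟩
      rcases hc x hx (hne _) (hne _) (hne _) with h | h | h
      · exact Or.inl (h.trans (le_max_left _ _))
      · exact Or.inr (Or.inl (h.trans (le_max_left _ _)))
      · exact Or.inr (Or.inr (h.trans (le_max_left _ _)))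
    · refine ⟨0, le_refl _, fun a b c => absurd ⟨a, b, c⟩ ht⟩
  choose cc hcc0 hcc using h1
  set c0 : ℝ := ∑ t, cc t with hc0
  have hc00 : 0 ≤ c0 := Finset.sum_nonneg fun t _ => hcc0 t
  have hle : ∀ t, cc t ≤ c0 := fun t =>
    Finset.single_le_sum (f := cc) (fun t _ => hcc0 t) (Finset.mem_univ t)
  refine ⟨Fintype.card ι * c0, by positivity, fun x hx hne => ?_⟩
  have h3 : (Finset.univ.filter fun l => c0 < lam W v 1 (Hp (Q l)) x).card ≤ 2 := by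
    by_contra hcon
    push Not at hcon
    obtain ⟨a, b, c, ha, hb, hc, hab, hac, hbc⟩ := Finset.two_lt_card_iff.1 hcon
    rw [Finset.mem_filter] at ha hb hc
    rcases hcc (a, b, c) hab hbc hac x hx hne with h | h | h
    · exact absurd (h.trans (hle _)) (not_le.2 ha.2)
    · exact absurd (h.trans (hle _)) (not_le.2 hb.2)
    · exact absurd (h.trans (hle _)) (not_le.2 hc.2)
  obtain ⟨s, hs1, hs2⟩ := Finset.exists_superset_card_eq h3 h2
  obtain ⟨l, l', hll, rfl⟩ := Finset.card_eq_two.1 hs2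
  refine ⟨l, l', hll, ?_⟩
  rw [← Finset.sum_add_sum_compl {l, l'}, Finset.sum_pair hll]
  have h4 : ∑ i ∈ ({l, l'} : Finset ι)ᶜ, lam W v 1 (Hp (Q i)) x ≤
      ∑ i ∈ ({l, l'} : Finset ι)ᶜ, c0 := by
    refine Finset.sum_le_sum fun i hi => ?_
    by_contra hcon
    rw [Finset.mem_compl] at hi
    exact hi (hs1 (Finset.mem_filter.2 ⟨Finset.mem_univ _, not_le.1 hcon⟩))
  rw [Finset.sum_const, nsmul_eq_mul] at h4
  have h5 : ((({l, l'} : Finset ι)ᶜ.card : ℕ) : ℝ) * c0 ≤ Fintype.card ι * c0 := by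
    refine mul_le_mul_of_nonneg_right ?_ hc00
    exact_mod_cast Finset.card_le_univ _
  linarith

/-- the inequality off a curve, at least two points -/
theorem gen_two {S : Finset ℕ} (hS : ∀ p ∈ S, p.Prime) {W : Option ℕ → AbsoluteValue Qb ℝ}
    (hW : Gd S W) {ι : Type} [Fintype ι] (Q : ι → Qb × Qb)
    (hQ : ∀ l l', l ≠ l' → dt (Q l) (Q l') ≠ 0) (h2 : 2 ≤ Fintype.card ι)
    (ε : ℝ) (hε : 0 < ε) : ∃ A : Set (Fin 3 → ℤ), Cv A ∧ ∃ c : ℝ, ∀ x : Fin 3 → ℤ, Prm x →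
      ev x Dc ≠ 0 → x ∉ A →
      ∑ v ∈ Tp S, (lam W v 2 Dc x + ∑ l, lam W v 1 (Hp (Q l)) x) ≤
        (4 + ε) * Real.log (Hx x) + c := by
  classical
  have hne : ∀ l, (Q l).1 ≠ 0 ∨ (Q l).2 ≠ 0 := by
    intro l
    have : Nontrivial ι := Fintype.one_lt_card_iff_nontrivial.1 (by omega)
    obtain ⟨l', hl'⟩ := exists_ne l
    exact (lin_of_dt (hQ l l' hl'.symm)).1
  have hl : ∀ v, ∃ c : ℝ, 0 ≤ c ∧ (v ∈ Tp S → ∀ x : Fin 3 → ℤ, Prm x →
      (∀ l, ev x (Hp (Q l)) ≠ 0) → ∃ l l', l ≠ l' ∧ ∑ i, lam W v 1 (Hp (Q i)) x ≤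
        lam W v 1 (Hp (Q l)) x + lam W v 1 (Hp (Q l')) x + c) := by
    intro v
    by_cases hv : v ∈ Tp S
    · obtain ⟨c, hc0, hc⟩ := loc hS hW hv Q hQ h2
      exact ⟨c, hc0, fun _ => hc⟩
    · exact ⟨0, le_refl _, fun h => absurd h hv⟩
  choose cl hcl0 hcl using hl
  have hg : ∀ γ : {v // v ∈ Tp S} → ι × ι, ∃ A : Set (Fin 3 → ℤ), Cv A ∧ ∃ c : ℝ, 0 ≤ c ∧
      ((∀ v, (γ v).1 ≠ (γ v).2) → ∀ x : Fin 3 → ℤ, Prm x →
      ev x Dc ≠ 0 → x ∉ A →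
      ∑ v ∈ (Tp S).attach, (lam W v 2 Dc x + lam W v 1 (Hp (Q (γ v).1)) x +
        lam W v 1 (Hp (Q (γ v).2)) x) ≤ (4 + ε) * Real.log (Hx x) + c) := by
    intro γ
    by_cases hγ : ∀ v, (γ v).1 ≠ (γ v).2
    · obtain ⟨A, hA, c, hc⟩ := gen hS hW
        (fun v => if h : v ∈ Tp S then Q (γ ⟨v, h⟩).1 else 0)
        (fun v => if h : v ∈ Tp S then Q (γ ⟨v, h⟩).2 else 0) (by
          intro v hv
          simp only [dif_pos hv]
          exact hQ _ _ (hγ ⟨v, hv⟩)) ε hε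
      refine ⟨A, hA, max c 0, le_max_right _ _, fun _ x hx hD hxA => ?_⟩
      have h3 := hc x hx hD hxA
      rw [← Finset.sum_attach] at h3
      have h4 : ∑ v ∈ (Tp S).attach, (lam W v 2 Dc x + lam W v 1 (Hp (Q (γ v).1)) x +
          lam W v 1 (Hp (Q (γ v).2)) x) ≤ (4 + ε) * Real.log (Hx x) + c := by
        refine le_trans (le_of_eq ?_) h3
        refine Finset.sum_congr rfl fun v _ => ?_
        simp only [dif_pos v.2]
      have := le_max_left c 0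
      linarith
    · exact ⟨∅, Cv_empty, 0, le_refl _, fun h => absurd h hγ⟩
  choose A hA cg hcg0 hcg using hg
  refine ⟨(⋃ γ ∈ (Finset.univ : Finset ({v // v ∈ Tp S} → ι × ι)), A γ) ∪
    (⋃ l ∈ (Finset.univ : Finset ι), {x | ev x (Hp (Q l)) = 0}),
    (Cv_biUnion _ _ fun γ _ => hA γ).union (Cv_biUnion _ _ fun l _ => Cv_Hp (hne l)),
    ∑ γ, cg γ + ∑ v ∈ Tp S, cl v, fun x hx hD hxA => ?_⟩
  rw [Set.mem_union] at hxA
  push Not at hxA
  obtain ⟨hxA, hxQ⟩ := hxA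
  simp only [Set.mem_iUnion, Set.mem_ofPred_eq, not_exists, Finset.mem_univ, forall_true_left]
    at hxA hxQ
  have h3 : ∀ v : {v // v ∈ Tp S}, ∃ l : ι × ι, l.1 ≠ l.2 ∧ ∑ i, lam W v 1 (Hp (Q i)) x ≤
        lam W v 1 (Hp (Q l.1)) x + lam W v 1 (Hp (Q l.2)) x + cl v := by
    intro v
    obtain ⟨l, l', h, h'⟩ := hcl v v.2 x hx hxQ
    exact ⟨(l, l'), h, h'⟩
  choose γ hγ1 hγ2 using h3
  have h4 := hcg γ hγ1 x hx hD (hxA γ)
  have h5 : cg γ ≤ ∑ γ, cg γ := Finset.single_le_sum (f := cg) (fun t _ => hcg0 t)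
    (Finset.mem_univ γ)
  have h6 : ∑ v ∈ Tp S, (lam W v 2 Dc x + ∑ l, lam W v 1 (Hp (Q l)) x) ≤
      ∑ v ∈ (Tp S).attach, (lam W v 2 Dc x + lam W v 1 (Hp (Q (γ v).1)) x +
        lam W v 1 (Hp (Q (γ v).2)) x) + ∑ v ∈ Tp S, cl v := by
    rw [← Finset.sum_attach (Tp S) (fun v => lam W v 2 Dc x + ∑ l, lam W v 1 (Hp (Q l)) x),
      ← Finset.sum_attach (Tp S) cl, ← Finset.sum_add_distrib]
    refine Finset.sum_le_sum fun v _ => ?_
    have := hγ2 v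
    linarith
  linarith

theorem exists_pt {q : ℕ} (P : Fin q → Qb × Qb) (hP : ∀ l, P l ≠ 0) (s : Finset Qb) :
    ∃ a : Qb, a ∉ s ∧ ∀ l, dt (P l) (a, 1) ≠ 0 := by
  classical
  obtain ⟨a, ha⟩ := Infinite.exists_notMem_finset
    (s ∪ Finset.univ.image fun l => (P l).1 / (P l).2)
  rw [Finset.mem_union] at ha
  push Not at ha
  refine ⟨a, ha.1, fun l h => ?_⟩
  unfold dt at h
  have h1 : (P l).2 ≠ 0 := by
    intro h0
    rw [h0] at h
    apply hP l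
    refine Prod.ext ?_ h0
    simpa using h
  apply ha.2
  refine Finset.mem_image.2 ⟨l, Finset.mem_univ l, ?_⟩
  rw [div_eq_iff h1]
  simp only [mul_one] at h
  linear_combination h

/-- the inequality off a curve -/
theorem gen_all {S : Finset ℕ} (hS : ∀ p ∈ S, p.Prime) {W : Option ℕ → AbsoluteValue Qb ℝ}
    (hW : Gd S W) (q : ℕ) (P : Fin q → Qb × Qb) (hP : ∀ l, P l ≠ 0)
    (hQ : ∀ l l', l ≠ l' → (P l).1 * (P l').2 - (P l).2 * (P l').1 ≠ 0)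
    (ε : ℝ) (hε : 0 < ε) : ∃ A : Set (Fin 3 → ℤ), Cv A ∧ ∃ c : ℝ, ∀ x : Fin 3 → ℤ, Prm x →
      ev x Dc ≠ 0 → x ∉ A →
      ∑ v ∈ Tp S, (lam W v 2 Dc x + ∑ l, lam W v 1 (Hp (P l)) x) ≤
        (4 + ε) * Real.log (Hx x) + c := by
  classical
  obtain ⟨a, _, ha⟩ := exists_pt P hP ∅
  obtain ⟨b, hb0, hb⟩ := exists_pt P hP {a}
  have hab : b ≠ a := by simpa using hb0
  set Q : Option (Option (Fin q)) → Qb × Qb := fun o => match o with
    | none => (a, 1)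
    | some none => (b, 1)
    | some (some l) => P l with hQd
  have hsym : ∀ P R : Qb × Qb, dt P R ≠ 0 → dt R P ≠ 0 := by
    intro P R h h'
    apply h
    unfold dt at *
    linear_combination -h'
  have hQQ : ∀ l l', l ≠ l' → dt (Q l) (Q l') ≠ 0 := by
    intro l l' hll
    have hab' : dt (a, 1) (b, 1) ≠ 0 := by
      unfold dt
      simp only [mul_one, one_mul]
      exact sub_ne_zero.2 hab.symm
    rcases l with _ | _ | l <;> rcases l' with _ | _ | l'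
    · exact absurd rfl hll
    · exact hab'
    · exact hsym _ _ (ha l')
    · exact hsym _ _ hab'
    · exact absurd rfl hll
    · exact hsym _ _ (hb l')
    · exact ha l
    · exact hb l
    · exact hQ l l' fun h => hll (by rw [h])
  obtain ⟨A, hA, c, hc⟩ := gen_two hS hW Q hQQ (by simp) ε hε
  have hbd : ∀ v, ∃ c : ℝ, 0 ≤ c ∧ (v ∈ Tp S → ∀ x, Prm x →
      (ev x (Hp (a, 1)) ≠ 0 → -c ≤ lam W v 1 (Hp (a, 1)) x) ∧
      (ev x (Hp (b, 1)) ≠ 0 → -c ≤ lam W v 1 (Hp (b, 1)) x)) := by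
    intro v
    by_cases hv : v ∈ Tp S
    · obtain ⟨K1, c1, _, h1, h2⟩ := t_BDD S hS W hW v hv 1 _ (hom_Hp (a, 1))
      obtain ⟨K3, c3, _, h3, h4⟩ := t_BDD S hS W hW v hv 1 _ (hom_Hp (b, 1))
      refine ⟨max c1 c3, le_max_of_le_left h1, fun _ x hx => ⟨fun h => ?_, fun h => ?_⟩⟩
      · exact (neg_le_neg (le_max_left _ _)).trans (h2 x hx h).1
      · exact (neg_le_neg (le_max_right _ _)).trans (h4 x hx h).1
    · exact ⟨0, le_refl _, fun h => absurd h hv⟩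
  choose cb hcb0 hcb using hbd
  refine ⟨A ∪ ({x | ev x (Hp (a, 1)) = 0} ∪ {x | ev x (Hp (b, 1)) = 0}), hA.union
    ((Cv_Hp (Or.inr one_ne_zero)).union (Cv_Hp (Or.inr one_ne_zero))),
    c + 2 * ∑ v ∈ Tp S, cb v, fun x hx hD hxA => ?_⟩
  rw [Set.mem_union, Set.mem_union] at hxA
  push Not at hxA
  obtain ⟨hxA, hxa, hxb⟩ := hxA
  have h1 := hc x hx hD hxA
  have h2 : ∑ v ∈ Tp S, (lam W v 2 Dc x + ∑ l, lam W v 1 (Hp (P l)) x) ≤
      ∑ v ∈ Tp S, (lam W v 2 Dc x + ∑ l, lam W v 1 (Hp (Q l)) x) + 2 * ∑ v ∈ Tp S, cb v := by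
    rw [Finset.mul_sum, ← Finset.sum_add_distrib]
    refine Finset.sum_le_sum fun v hv => ?_
    rw [Fintype.sum_option, Fintype.sum_option]
    have h3 := (hcb v hv x hx).1 hxa
    have h4 := (hcb v hv x hx).2 hxb
    show _ ≤ lam W v 2 Dc x + (lam W v 1 (Hp (a, 1)) x + (lam W v 1 (Hp (b, 1)) x +
      ∑ l, lam W v 1 (Hp (P l)) x)) + 2 * cb v
    linarith
  linarith

end Pool.Agent.H933.QP
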