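import Pool.Agent.H933.QP.Tr2

/-!
The theorem of Roth and Ridout for the rational points, in the same form.
-/

set_option autoImplicit false

namespace Pool.Agent.H933.QP

open Polynomial
open Pool.Agent.NH28.QP (Qb PQ mp Dc Hp Hx Prm ev Tp Gd nv lam)
open Pool.Agent.H990R4.VJ (mm one_le_mm coeff_le)

/-- the value of the linear form of a point -/
noncomputable def el (P : Qb × Qb) (y : Fin 2 → ℤ) : Qb :=
  P.2 * ((y 0 : ℤ) : Qb) + P.1 * ((y 1 : ℤ) : Qb)

/-- the norm of a primitive vector -/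
noncomputable def nv2 (v : Option ℕ) (y : Fin 2 → ℤ) : ℝ := match v with
  | none => Hx y
  | some _ => 1

/-- the local height -/
noncomputable def lam1 (W : Option ℕ → AbsoluteValue Qb ℝ) (v : Option ℕ) (P : Qb × Qb)
    (y : Fin 2 → ℤ) : ℝ := Real.log (nv2 v y) - Real.log (W v (el P y))

theorem le_Hx2 (y : Fin 2 → ℤ) (i : Fin 2) : |(y i : ℝ)| ≤ Hx y :=
  le_ciSup (f := fun i => |(y i : ℝ)|) (Set.finite_range _).bddAbove i

theorem prm2_ne {y : Fin 2 → ℤ} (hy : IsCoprime (y 0) (y 1)) : y ≠ 0 := by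
  rintro rfl
  obtain ⟨a, b, h⟩ := hy
  simp at h

theorem nv2_pos {y : Fin 2 → ℤ} (hy : IsCoprime (y 0) (y 1)) (v : Option ℕ) : 0 < nv2 v y := by
  rcases v with _ | p
  · exact lt_of_lt_of_le one_pos (one_le_Hx y (prm2_ne hy))
  · exact one_pos

theorem W_int {S : Finset ℕ} {W : Option ℕ → AbsoluteValue Qb ℝ} (hW : Gd S W) (m : ℤ) :
    W none (m : Qb) = |(m : ℝ)| := by
  have h1 := hW.inf (m : ℚ)
  rw [map_intCast] at h1
  rw [h1, Rat.cast_intCast]

theorem W_int_p {S : Finset ℕ} {W : Option ℕ → AbsoluteValue Qb ℝ} (hW : Gd S W) {p : ℕ}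
    (hp : p ∈ S) (m : ℤ) : W (some p) (m : Qb) = ((padicNorm p m : ℚ) : ℝ) := by
  have h1 := hW.fin p hp (m : ℚ)
  rw [map_intCast] at h1
  rw [h1]

theorem W_le {S : Finset ℕ} (hS : ∀ p ∈ S, p.Prime) {W : Option ℕ → AbsoluteValue Qb ℝ}
    (hW : Gd S W) {v : Option ℕ} (hv : v ∈ Tp S) (y : Fin 2 → ℤ) (i : Fin 2) :
    W v (y i : Qb) ≤ nv2 v y := by
  rcases v with _ | p
  · rw [W_int hW]
    exact le_Hx2 y i
  · have hp : p ∈ S := by
      unfold Tp at hv
      simpa using hv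
    have hf : Fact p.Prime := ⟨hS p hp⟩
    rw [W_int_p hW hp]
    show _ ≤ (1 : ℝ)
    exact_mod_cast padicNorm.of_int _

theorem exists_nv2 {S : Finset ℕ} (hS : ∀ p ∈ S, p.Prime) {W : Option ℕ → AbsoluteValue Qb ℝ}
    (hW : Gd S W) {v : Option ℕ} (hv : v ∈ Tp S) {y : Fin 2 → ℤ} (hy : IsCoprime (y 0) (y 1)) :
    ∃ i, W v (y i : Qb) = nv2 v y := by
  rcases v with _ | p
  · obtain ⟨r, hr⟩ := exists_eq_ciSup_of_finite (f := fun i => |(y i : ℝ)|)
    refine ⟨r, ?_⟩
    rw [W_int hW]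
    exact hr
  · have hp : p ∈ S := by
      unfold Tp at hv
      simpa using hv
    have hf : Fact p.Prime := ⟨hS p hp⟩
    obtain ⟨r, hr⟩ : ∃ r, ¬ (p : ℤ) ∣ y r := by
      by_contra hc
      push Not at hc
      exact (Nat.prime_iff_prime_int.1 (hS p hp)).not_isUnit (hy.isUnit_of_dvd' (hc 0) (hc 1))
    refine ⟨r, ?_⟩
    rw [W_int_p hW hp, (padicNorm.int_eq_one_iff _).2 hr]
    show ((1 : ℚ) : ℝ) = 1
    norm_num

/-- two points of the projective line -/
theorem el_lin (P R : Qb × Qb) (i : Fin 2) : ∃ α β : Qb,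
    (∀ y : Fin 2 → ℤ, dt P R * (y i : Qb) = α * el P y + β * el R y) := by
  fin_cases i
  · refine ⟨-R.1, P.1, fun y => ?_⟩
    unfold el dt
    simp only [Fin.zero_eta]
    ring
  · refine ⟨R.2, -P.2, fun y => ?_⟩
    unfold el dt
    simp only [Fin.mk_one]
    ring

theorem lam1_low {S : Finset ℕ} (hS : ∀ p ∈ S, p.Prime) {W : Option ℕ → AbsoluteValue Qb ℝ}
    (hW : Gd S W) {v : Option ℕ} (hv : v ∈ Tp S) (P : Qb × Qb) :
    ∃ c : ℝ, 0 ≤ c ∧ ∀ y : Fin 2 → ℤ, IsCoprime (y 0) (y 1) → el P y ≠ 0 → -c ≤ lam1 W v P y := by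
  set A : ℝ := 1 + (W v P.2 + W v P.1) with hA
  have h0 := (W v).nonneg P.1
  have h1 := (W v).nonneg P.2
  have hA1 : 1 ≤ A := by linarith
  refine ⟨Real.log A, Real.log_nonneg hA1, fun y hy hP => ?_⟩
  have hn := nv2_pos hy v
  have h2 : W v (el P y) ≤ A * nv2 v y := by
    unfold el
    refine ((W v).add_le _ _).trans ?_
    rw [map_mul, map_mul]
    have h3 := mul_le_mul_of_nonneg_left (W_le hS hW hv y 0) h1
    have h4 := mul_le_mul_of_nonneg_left (W_le hS hW hv y 1) h0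
    nlinarith
  unfold lam1
  have h3 := Real.log_le_log ((W v).pos hP) h2
  rw [Real.log_mul (by linarith) hn.ne'] at h3
  linarith

theorem two1 {S : Finset ℕ} (hS : ∀ p ∈ S, p.Prime) {W : Option ℕ → AbsoluteValue Qb ℝ}
    (hW : Gd S W) {v : Option ℕ} (hv : v ∈ Tp S) (P R : Qb × Qb) (h : dt P R ≠ 0) :
    ∃ c : ℝ, 0 ≤ c ∧ ∀ y : Fin 2 → ℤ, IsCoprime (y 0) (y 1) → el P y ≠ 0 → el R y ≠ 0 →
      lam1 W v P y ≤ c ∨ lam1 W v R y ≤ c := by
  choose α β hl using el_lin P R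
  have hκ1 : 0 < W v (dt P R) := (W v).pos h
  set A : ℝ := 1 + ∑ r, (W v (α r) + W v (β r)) with hA
  have hs : 0 ≤ ∑ r, (W v (α r) + W v (β r)) := Finset.sum_nonneg fun r _ =>
    add_nonneg ((W v).nonneg _) ((W v).nonneg _)
  have hA0 : 0 < A := by linarith
  refine ⟨max 0 (Real.log (A / W v (dt P R))), le_max_left _ _, fun y hy hP hR => ?_⟩
  by_contra hc
  push Not at hc
  obtain ⟨hc1, hc2⟩ := hc
  obtain ⟨r, hr⟩ := exists_nv2 hS hW hv hy
  have hn0 : 0 < nv2 v y := nv2_pos hy v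
  have key : ∀ T : Qb × Qb, el T y ≠ 0 → max 0 (Real.log (A / W v (dt P R))) < lam1 W v T y →
      A * W v (el T y) < W v (dt P R) * nv2 v y := by
    intro T hg h
    have hg0 := (W v).pos hg
    have h1 := (le_max_right _ _).trans_lt h
    unfold lam1 at h1
    rw [Real.log_div hA0.ne' hκ1.ne'] at h1
    have h4 : Real.log (A * W v (el T y)) < Real.log (W v (dt P R) * nv2 v y) := by
      rw [Real.log_mul hA0.ne' hg0.ne', Real.log_mul hκ1.ne' hn0.ne']
      linarith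
    exact (Real.log_lt_log_iff (by positivity) (by positivity)).1 h4
  have k1 := key _ hP hc1
  have k2 := key _ hR hc2
  have h4 := hl r y
  have h5 : W v (dt P R) * nv2 v y ≤ W v (α r) * W v (el P y) + W v (β r) * W v (el R y) := by
    rw [← hr, ← map_mul, h4, ← map_mul, ← map_mul]
    exact (W v).add_le _ _
  set m := max (W v (el P y)) (W v (el R y)) with hm
  have hm0 : 0 ≤ m := le_max_of_le_left ((W v).nonneg _)
  have h6 : A * m < W v (dt P R) * nv2 v y := by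
    rcases max_choice (W v (el P y)) (W v (el R y)) with h | h
    · rw [hm, h]; exact k1
    · rw [hm, h]; exact k2
  have h7 : W v (α r) * W v (el P y) ≤ W v (α r) * m :=
    mul_le_mul_of_nonneg_left (le_max_left _ _) ((W v).nonneg _)
  have h8 : W v (β r) * W v (el R y) ≤ W v (β r) * m :=
    mul_le_mul_of_nonneg_left (le_max_right _ _) ((W v).nonneg _)
  have h10 := Finset.single_le_sum (f := fun r => W v (α r) + W v (β r))
    (fun r _ => add_nonneg ((W v).nonneg _) ((W v).nonneg _)) (Finset.mem_univ r)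
  have h11 : (W v (α r) + W v (β r)) * m ≤ A * m := by
    refine mul_le_mul_of_nonneg_right ?_ hm0
    have h12 : W v (α r) + W v (β r) ≤ ∑ r, (W v (α r) + W v (β r)) := h10
    linarith
  linarith

theorem fin_el (P : Qb × Qb) (hP : P ≠ 0) :
    {y : Fin 2 → ℤ | IsCoprime (y 0) (y 1) ∧ el P y = 0}.Finite := by
  by_cases hem : ∃ z : Fin 2 → ℤ, IsCoprime (z 0) (z 1) ∧ el P z = 0
  · obtain ⟨z, hz, hz0⟩ := hem
    refine (Set.toFinite {z, -z}).subset ?_
    rintro y ⟨hy, hy0⟩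
    have h1 : y 0 * z 1 = z 0 * y 1 := by
      unfold el at hz0 hy0
      have h2 : P.2 * ((y 0 * z 1 - z 0 * y 1 : ℤ) : Qb) = 0 := by
        push_cast
        linear_combination ((z 1 : ℤ) : Qb) * hy0 - ((y 1 : ℤ) : Qb) * hz0
      have h3 : P.1 * ((y 0 * z 1 - z 0 * y 1 : ℤ) : Qb) = 0 := by
        push_cast
        linear_combination ((y 0 : ℤ) : Qb) * hz0 - ((z 0 : ℤ) : Qb) * hy0
      by_contra hne
      have h4 : ((y 0 * z 1 - z 0 * y 1 : ℤ) : Qb) ≠ 0 := by
        exact_mod_cast sub_ne_zero.2 hne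
      exact hP (Prod.ext ((mul_eq_zero.1 h3).resolve_right h4)
        ((mul_eq_zero.1 h2).resolve_right h4))
    obtain ⟨u, w, huw⟩ := hz
    have e0 : y 0 = (u * y 0 + w * y 1) * z 0 := by
      linear_combination (-y 0) * huw + w * h1
    have e1 : y 1 = (u * y 0 + w * y 1) * z 1 := by
      linear_combination (-y 1) * huw - u * h1
    have hk : IsUnit (u * y 0 + w * y 1) :=
      hy.isUnit_of_dvd' ⟨z 0, e0⟩ ⟨z 1, e1⟩
    rcases Int.isUnit_iff.1 hk with h | h
    · left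
      rw [h, one_mul] at e0 e1
      funext i
      fin_cases i
      · exact e0
      · exact e1
    · right
      rw [h] at e0 e1
      show y = -z
      funext i
      fin_cases i
      · show y 0 = - z 0
        linarith
      · show y 1 = - z 1
        linarith
  · have : {y : Fin 2 → ℤ | IsCoprime (y 0) (y 1) ∧ el P y = 0} = ∅ := by
      ext y
      simp only [Set.mem_ofPred_eq, Set.mem_empty_iff_false, iff_false]
      exact fun h => hem ⟨y, h⟩
    rw [this]
    exact Set.finite_empty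

theorem exists_op (P : Qb × Qb) (hP : P ≠ 0) : ∃ R : Qb × Qb, dt P R ≠ 0 := by
  by_cases h : P.1 = 0
  · refine ⟨(1, 0), fun h1 => hP (Prod.ext h ?_)⟩
    unfold dt at h1
    simpa using h1
  · refine ⟨(0, 1), fun h1 => h ?_⟩
    unfold dt at h1
    simpa using h1

/-- the inequality for a fixed choice of points -/
theorem rat_gen {S : Finset ℕ} (hS : ∀ p ∈ S, p.Prime) {W : Option ℕ → AbsoluteValue Qb ℝ}
    (hW : Gd S W) (P R : Option ℕ → Qb × Qb) (hPR : ∀ v ∈ Tp S, dt (P v) (R v) ≠ 0)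
    (ε : ℝ) (hε : 0 < ε) : ∃ F : Set (Fin 2 → ℤ), F.Finite ∧ ∃ c : ℝ, ∀ y : Fin 2 → ℤ,
      IsCoprime (y 0) (y 1) → y ∉ F →
      ∑ v ∈ Tp S, lam1 W v (P v) y ≤ (2 + ε) * Real.log (Hx y) + c := by
  classical
  have hdet : ∀ v ∈ Tp S, (!![(P v).2, (P v).1; (R v).2, (R v).1]).det ≠ 0 := by
    intro v hv h
    rw [Matrix.det_fin_two_of] at h
    apply hPR v hv
    unfold dt
    linear_combination -h
  obtain ⟨Z, hZ0, c0, hc0⟩ := t_SUB S hS W hW (Tp S) (Finset.Subset.refl _) 2 (by norm_num)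
    (fun v => !![(P v).2, (P v).1; (R v).2, (R v).1]) hdet ε hε
  have hlow : ∀ v, ∃ c : ℝ, 0 ≤ c ∧ (v ∈ Tp S → ∀ y : Fin 2 → ℤ, IsCoprime (y 0) (y 1) →
      el (R v) y ≠ 0 → -c ≤ lam1 W v (R v) y) := by
    intro v
    by_cases hv : v ∈ Tp S
    · obtain ⟨c, h0, h1⟩ := lam1_low hS hW hv (R v)
      exact ⟨c, h0, fun _ => h1⟩
    · exact ⟨0, le_refl _, fun h => absurd h hv⟩
  choose cb hcb0 hcb using hlow
  have hne : ∀ v ∈ Tp S, P v ≠ 0 ∧ R v ≠ 0 := by
    intro v hv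
    constructor
    · intro h
      apply hPR v hv
      rw [h]
      unfold dt
      simp
    · intro h
      apply hPR v hv
      rw [h]
      unfold dt
      simp
  refine ⟨(⋃ z ∈ Z, {y | IsCoprime (y 0) (y 1) ∧ el ((z 1 : ℚ), (z 0 : ℚ)) y = 0}) ∪
    ((⋃ v ∈ Tp S, {y | IsCoprime (y 0) (y 1) ∧ el (P v) y = 0}) ∪
      (⋃ v ∈ Tp S, {y | IsCoprime (y 0) (y 1) ∧ el (R v) y = 0})), ?_, ?_⟩
  · refine (Set.Finite.biUnion (Finset.finite_toSet Z) fun z hz => fin_el _ fun h => ?_).union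
      ((Set.Finite.biUnion (Finset.finite_toSet (Tp S)) fun v hv => fin_el _ (hne v hv).1).union
      (Set.Finite.biUnion (Finset.finite_toSet (Tp S)) fun v hv => fin_el _ (hne v hv).2))
    apply hZ0 z hz
    have h1 : ((z 1 : ℚ) : Qb) = 0 := congrArg Prod.fst h
    have h2 : ((z 0 : ℚ) : Qb) = 0 := congrArg Prod.snd h
    funext i
    fin_cases i
    · show z 0 = 0
      exact_mod_cast h2
    · show z 1 = 0
      exact_mod_cast h1
  refine ⟨c0 + ∑ v ∈ Tp S, cb v, fun y hy hyF => ?_⟩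
  rw [Set.mem_union, Set.mem_union] at hyF
  push Not at hyF
  obtain ⟨hyZ, hyP, hyR⟩ := hyF
  simp only [Set.mem_iUnion, Set.mem_ofPred_eq, not_exists, not_and] at hyZ hyP hyR
  have hel : ∀ v, ∀ a : Fin 2, ∑ j, !![(P v).2, (P v).1; (R v).2, (R v).1] a j * (y j : Qb) =
      (if a = 0 then el (P v) y else el (R v) y) := by
    intro v a
    unfold el
    fin_cases a <;> simp [Fin.sum_univ_two]
  have h1 := hc0 y (prm2_ne hy) (fun z hz h0 => by
      apply hyZ z hz hy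
      rw [Fin.sum_univ_two] at h0
      unfold el
      have h2 := congrArg (algebraMap ℚ Qb) h0
      simp only [map_add, map_mul, map_intCast, map_zero, eq_ratCast] at h2
      exact h2) (fun v hv a => by
      rw [hel v a]
      split_ifs
      · exact hyP v hv hy
      · exact hyR v hv hy)
  have h2 : ∀ v ∈ Tp S, lam1 W v (P v) y - cb v ≤
      ∑ a, (Real.log (⨆ j, W v (y j : Qb)) -
        Real.log (W v (∑ j, !![(P v).2, (P v).1; (R v).2, (R v).1] a j * (y j : Qb)))) := by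
    intro v hv
    rw [Fin.sum_univ_two, hel v 0, hel v 1, if_pos rfl, if_neg (by decide)]
    have h3 := hcb v hv y hy (hyR v hv hy)
    have h4 : Real.log (nv2 v y) ≤ Real.log (⨆ j, W v (y j : Qb)) := by
      obtain ⟨i, hi⟩ := exists_nv2 hS hW hv hy
      refine Real.log_le_log (nv2_pos hy v) ?_
      rw [← hi]
      exact le_ciSup (f := fun i => W v (y i : Qb)) (Set.finite_range _).bddAbove i
    unfold lam1 at h3 ⊢
    linarith
  have h3 := Finset.sum_le_sum h2
  rw [Finset.sum_sub_distrib] at h3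
  have h4 := h3.trans h1
  push_cast at h4
  linarith

end Pool.Agent.H933.QP
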