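import Pool.Agent.H933.QP.Rat1

/-!
The theorem of Roth and Ridout for a reduced divisor on the projective line.
-/

set_option autoImplicit false

namespace Pool.Agent.H933.QP

open Polynomial
open Pool.Agent.NH28.QP (Qb PQ mp Dc Hp Hx Prm ev Tp Gd nv lam)
open Pool.Agent.H990R4.VJ (mm one_le_mm coeff_le)

theorem loc1 {S : Finset ℕ} (hS : ∀ p ∈ S, p.Prime) {W : Option ℕ → AbsoluteValue Qb ℝ}
    (hW : Gd S W) {v : Option ℕ} (hv : v ∈ Tp S) {q : ℕ} (hq : 1 ≤ q) (P : Fin q → Qb × Qb)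
    (hP : ∀ l l', l ≠ l' → dt (P l) (P l') ≠ 0) :
    ∃ c : ℝ, 0 ≤ c ∧ ∀ y : Fin 2 → ℤ, IsCoprime (y 0) (y 1) → (∀ l, el (P l) y ≠ 0) →
      ∃ l, ∑ i, lam1 W v (P i) y ≤ lam1 W v (P l) y + c := by
  classical
  have h1 : ∀ t : Fin q × Fin q, ∃ c : ℝ, 0 ≤ c ∧ (t.1 ≠ t.2 →
      ∀ y : Fin 2 → ℤ, IsCoprime (y 0) (y 1) → (∀ l, el (P l) y ≠ 0) →
      lam1 W v (P t.1) y ≤ c ∨ lam1 W v (P t.2) y ≤ c) := by
    intro t
    by_cases ht : t.1 ≠ t.2
    · obtain ⟨c, h0, hc⟩ := two1 hS hW hv (P t.1) (P t.2) (hP _ _ ht)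
      exact ⟨c, h0, fun _ y hy hne => hc y hy (hne _) (hne _)⟩
    · exact ⟨0, le_refl _, fun h => absurd h ht⟩
  choose cc hcc0 hcc using h1
  set c0 : ℝ := ∑ t, cc t with hc0
  have hc00 : 0 ≤ c0 := Finset.sum_nonneg fun t _ => hcc0 t
  have hle : ∀ t, cc t ≤ c0 := fun t =>
    Finset.single_le_sum (f := cc) (fun t _ => hcc0 t) (Finset.mem_univ t)
  refine ⟨q * c0, by positivity, fun y hy hne => ?_⟩
  obtain ⟨l, hl⟩ : ∃ l : Fin q, ∀ i, i ≠ l → lam1 W v (P i) y ≤ c0 := by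
    by_cases h : ∃ l, c0 < lam1 W v (P l) y
    · obtain ⟨l, hl⟩ := h
      refine ⟨l, fun i hi => ?_⟩
      rcases hcc (i, l) hi y hy hne with h | h
      · exact h.trans (hle _)
      · exact absurd (h.trans (hle _)) (not_le.2 hl)
    · push Not at h
      exact ⟨⟨0, hq⟩, fun i _ => h i⟩
  refine ⟨l, ?_⟩
  rw [← Finset.add_sum_erase _ _ (Finset.mem_univ l)]
  have h4 : ∑ i ∈ Finset.univ.erase l, lam1 W v (P i) y ≤ ∑ i ∈ Finset.univ.erase l, c0 :=
    Finset.sum_le_sum fun i hi => hl i (Finset.ne_of_mem_erase hi)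
  rw [Finset.sum_const, nsmul_eq_mul] at h4
  have h5 : (((Finset.univ.erase l : Finset (Fin q)).card : ℕ) : ℝ) * c0 ≤ q * c0 := by
    refine mul_le_mul_of_nonneg_right ?_ hc00
    have := Finset.card_le_univ (Finset.univ.erase l : Finset (Fin q))
    rw [Fintype.card_fin] at this
    exact_mod_cast this
  linarith

theorem rat_all {S : Finset ℕ} (hS : ∀ p ∈ S, p.Prime) {W : Option ℕ → AbsoluteValue Qb ℝ}
    (hW : Gd S W) {q : ℕ} (hq : 1 ≤ q) (P : Fin q → Qb × Qb) (hP0 : ∀ l, P l ≠ 0)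
    (hP : ∀ l l', l ≠ l' → dt (P l) (P l') ≠ 0) (ε : ℝ) (hε : 0 < ε) :
    ∃ F : Set (Fin 2 → ℤ), F.Finite ∧ ∃ c : ℝ, ∀ y : Fin 2 → ℤ,
      IsCoprime (y 0) (y 1) → y ∉ F →
      ∑ v ∈ Tp S, ∑ i, lam1 W v (P i) y ≤ (2 + ε) * Real.log (Hx y) + c := by
  classical
  choose R hR using fun l => exists_op (P l) (hP0 l)
  have hl : ∀ v, ∃ c : ℝ, 0 ≤ c ∧ (v ∈ Tp S → ∀ y : Fin 2 → ℤ, IsCoprime (y 0) (y 1) →
      (∀ l, el (P l) y ≠ 0) → ∃ l, ∑ i, lam1 W v (P i) y ≤ lam1 W v (P l) y + c) := by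
    intro v
    by_cases hv : v ∈ Tp S
    · obtain ⟨c, hc0, hc⟩ := loc1 hS hW hv hq P hP
      exact ⟨c, hc0, fun _ => hc⟩
    · exact ⟨0, le_refl _, fun h => absurd h hv⟩
  choose cl hcl0 hcl using hl
  have l0 : Fin q := ⟨0, hq⟩
  have hg : ∀ γ : {v // v ∈ Tp S} → Fin q, ∃ F : Set (Fin 2 → ℤ), F.Finite ∧ ∃ c : ℝ, 0 ≤ c ∧
      ∀ y : Fin 2 → ℤ, IsCoprime (y 0) (y 1) → y ∉ F →
      ∑ v ∈ (Tp S).attach, lam1 W v (P (γ v)) y ≤ (2 + ε) * Real.log (Hx y) + c := by
    intro γ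
    obtain ⟨F, hF, c, hc⟩ := rat_gen hS hW
      (fun v => if h : v ∈ Tp S then P (γ ⟨v, h⟩) else 0)
      (fun v => if h : v ∈ Tp S then R (γ ⟨v, h⟩) else 0) (by
        intro v hv
        simp only [dif_pos hv]
        exact hR _) ε hε
    refine ⟨F, hF, max c 0, le_max_right _ _, fun y hy hyF => ?_⟩
    have h3 := hc y hy hyF
    rw [← Finset.sum_attach] at h3
    have h4 : ∑ v ∈ (Tp S).attach, lam1 W v (P (γ v)) y ≤ (2 + ε) * Real.log (Hx y) + c := by
      refine le_trans (le_of_eq ?_) h3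
      refine Finset.sum_congr rfl fun v _ => ?_
      simp only [dif_pos v.2]
    have := le_max_left c 0
    linarith
  choose F hF cg hcg0 hcg using hg
  refine ⟨(⋃ γ ∈ (Set.univ : Set ({v // v ∈ Tp S} → Fin q)), F γ) ∪
    (⋃ l ∈ (Set.univ : Set (Fin q)), {y | IsCoprime (y 0) (y 1) ∧ el (P l) y = 0}),
    (Set.Finite.biUnion Set.finite_univ fun γ _ => hF γ).union
      (Set.Finite.biUnion Set.finite_univ fun l _ => fin_el _ (hP0 l)),
    ∑ γ, cg γ + ∑ v ∈ Tp S, cl v, fun y hy hyF => ?_⟩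
  rw [Set.mem_union] at hyF
  push Not at hyF
  obtain ⟨hyF, hyP⟩ := hyF
  simp only [Set.mem_iUnion, Set.mem_ofPred_eq, not_exists, not_and, Set.mem_univ,
    forall_true_left] at hyF hyP
  have hyP' : ∀ l, el (P l) y ≠ 0 := fun l => hyP l hy
  have h3 : ∀ v : {v // v ∈ Tp S}, ∃ l : Fin q, ∑ i, lam1 W v (P i) y ≤
        lam1 W v (P l) y + cl v := fun v => hcl v v.2 y hy hyP'
  choose γ hγ using h3
  have h4 := hcg γ y hy (hyF γ)
  have h5 : cg γ ≤ ∑ γ, cg γ := Finset.single_le_sum (f := cg) (fun t _ => hcg0 t)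
    (Finset.mem_univ γ)
  have h6 : ∑ v ∈ Tp S, ∑ i, lam1 W v (P i) y ≤
      ∑ v ∈ (Tp S).attach, lam1 W v (P (γ v)) y + ∑ v ∈ Tp S, cl v := by
    rw [← Finset.sum_attach (Tp S) (fun v => ∑ i, lam1 W v (P i) y),
      ← Finset.sum_attach (Tp S) cl, ← Finset.sum_add_distrib]
    exact Finset.sum_le_sum fun v _ => hγ v
  linarith

/-- the resultant with a linear polynomial -/
theorem exists_P1 (G : ℤ[X]) (hG : Squarefree (G.map (Int.castRingHom ℚ))) (q : ℕ)
    (h1 : G.natDegree ≤ q) (h2 : q ≤ G.natDegree + 1) : ∃ (P : Fin q → Qb × Qb) (c : Qb), c ≠ 0 ∧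
      (∀ l, P l ≠ 0) ∧ (∀ l l', l ≠ l' → dt (P l) (P l') ≠ 0) ∧
      ∀ f : ℤ[X], f.natDegree ≤ 1 → ((resultant f G 1 q : ℤ) : Qb) =
        c * ∏ l, el (P l) ![f.coeff 0, f.coeff 1] := by
  obtain ⟨α, hα, hprod⟩ := exists_roots G hG
  have hG0 : G ≠ 0 := by
    rintro rfl
    rw [Polynomial.map_zero] at hG
    exact hG.ne_zero rfl
  have hlc : ((G.leadingCoeff : ℤ) : Qb) ≠ 0 := by
    exact_mod_cast leadingCoeff_ne_zero.2 hG0
  have hev : ∀ (f : ℤ[X]), f.natDegree ≤ 1 → ∀ a : Qb,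
      (f.map (Int.castRingHom Qb)).eval a = el (a, 1) ![f.coeff 0, f.coeff 1] := by
    intro f hf a
    rw [eval_map, eval₂_eq_sum_range' _ (n := 2) (by omega), Finset.sum_range_succ,
      Finset.sum_range_succ, Finset.sum_range_zero]
    unfold el
    simp
    ring
  have hres : ∀ f : ℤ[X], f.natDegree ≤ 1 → ((resultant f G 1 G.natDegree : ℤ) : Qb) =
      ((G.leadingCoeff : ℤ) : Qb) * (-1) ^ G.natDegree *
        ∏ l, el (α l, 1) ![f.coeff 0, f.coeff 1] := by
    intro f hf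
    rw [← eq_intCast (Int.castRingHom Qb), ← resultant_map_map, hprod, resultant_C_mul_right,
      pow_one]
    have e2 := resultant_prod_right (Finset.univ : Finset (Fin G.natDegree))
      (f.map (Int.castRingHom Qb)) (fun l => X - C (α l)) 1 (natDegree_map_le.trans hf) (by simp)
    have e3 : (∏ l : Fin G.natDegree, (X - C (α l))).natDegree = G.natDegree := by
      rw [natDegree_prod_of_monic _ _ fun l _ => monic_X_sub_C _]
      simp
    rw [e3] at e2
    rw [e2, mul_assoc]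
    congr 1
    have e4 : ∀ l : Fin G.natDegree, resultant (f.map (Int.castRingHom Qb)) (X - C (α l)) 1
        (X - C (α l)).natDegree = -1 * el (α l, 1) ![f.coeff 0, f.coeff 1] := by
      intro l
      rw [natDegree_X_sub_C, resultant_X_sub_C_right _ _ _ (natDegree_map_le.trans hf),
        hev f hf, pow_one]
    rw [Finset.prod_congr rfl fun l _ => e4 l, Finset.prod_mul_distrib, Finset.prod_const,
      Finset.card_univ, Fintype.card_fin]
  rcases Nat.eq_or_lt_of_le h1 with h3 | h3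
  · subst h3
    refine ⟨fun l => (α l, 1), _, mul_ne_zero hlc (pow_ne_zero _ (by norm_num)), fun l h => ?_,
      fun l l' hll => ?_, hres⟩
    · exact one_ne_zero (congrArg Prod.snd h)
    · unfold dt
      simp only [mul_one, one_mul]
      exact sub_ne_zero.2 fun h => hll (hα h)
  · obtain rfl : q = G.natDegree + 1 := by omega
    refine ⟨Fin.snoc (fun l => (α l, 1)) (1, 0), ((G.leadingCoeff : ℤ) : Qb) * (-1) ^ G.natDegree,
      mul_ne_zero hlc (pow_ne_zero _ (by norm_num)), fun l => ?_, fun l l' hll => ?_, ?_⟩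
    · refine Fin.lastCases ?_ (fun l => ?_) l
      · rw [Fin.snoc_last]
        exact fun h => one_ne_zero (congrArg Prod.fst h)
      · rw [Fin.snoc_castSucc]
        exact fun h => one_ne_zero (congrArg Prod.snd h)
    · revert l' hll
      refine Fin.lastCases ?_ (fun l => ?_) l
      · intro l'
        refine Fin.lastCases ?_ (fun l' => ?_) l'
        · exact fun h => absurd rfl h
        · intro _
          rw [Fin.snoc_last, Fin.snoc_castSucc]
          unfold dt
          simp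
      · intro l'
        refine Fin.lastCases ?_ (fun l' => ?_) l'
        · intro _
          rw [Fin.snoc_last, Fin.snoc_castSucc]
          unfold dt
          simp
        · intro hll
          rw [Fin.snoc_castSucc, Fin.snoc_castSucc]
          unfold dt
          simp only [mul_one, one_mul]
          exact sub_ne_zero.2 fun h => hll (by rw [hα h])
    · intro f hf
      rw [resultant_add_right_deg _ _ _ _ 1 le_rfl, Fin.prod_univ_castSucc, Fin.snoc_last]
      simp only [Fin.snoc_castSucc]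
      have e : el ((1 : Qb), (0 : Qb)) ![f.coeff 0, f.coeff 1] = ((f.coeff 1 : ℤ) : Qb) := by
        unfold el
        simp
      push_cast
      rw [hres f hf, e, pow_one]
      ring

theorem mm_le1 (f : ℤ[X]) (hf : f.natDegree = 1) : mm f ≤ 2 * Hx ![f.coeff 0, f.coeff 1] := by
  have h1 := mahlerMeasure_le_sum_norm_coeff (f.map (Int.castRingHom ℂ))
  have h2 : (f.map (Int.castRingHom ℂ)).natDegree < 2 :=
    lt_of_le_of_lt natDegree_map_le (by omega)
  rw [sum_over_range' _ (by simp) 2 h2, Finset.sum_range_succ, Finset.sum_range_succ,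
    Finset.sum_range_zero] at h1
  have h3 : ∀ i : ℕ, ‖(f.map (Int.castRingHom ℂ)).coeff i‖ = |((f.coeff i : ℤ) : ℝ)| := by
    intro i
    rw [coeff_map]
    simp
  rw [h3, h3] at h1
  have h4 := le_Hx2 ![f.coeff 0, f.coeff 1] 0
  have h5 := le_Hx2 ![f.coeff 0, f.coeff 1] 1
  simp only [Matrix.cons_val_zero, Matrix.cons_val_one] at h4 h5
  unfold mm
  linarith

theorem Hx_le1 (f : ℤ[X]) (hf : f.natDegree = 1) : Hx ![f.coeff 0, f.coeff 1] ≤ 2 * mm f := by
  have h1 : ∀ j, (|f.coeff j| : ℝ) ≤ 2 * mm f := by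
    intro j
    have := coeff_le f j
    rw [hf] at this
    norm_num at this
    exact this
  have hm : 0 ≤ mm f := mahlerMeasure_nonneg _
  refine Real.iSup_le (fun i => ?_) (by positivity)
  fin_cases i
  · exact h1 0
  · exact h1 1

theorem coprime_of {f : ℤ[X]} (hf : f.natDegree = 1) (hp : f.IsPrimitive) :
    IsCoprime (f.coeff 0) (f.coeff 1) := by
  rw [Int.isCoprime_iff_gcd_eq_one]
  have h1 : C ((Int.gcd (f.coeff 0) (f.coeff 1) : ℕ) : ℤ) ∣ f := by
    rw [C_dvd_iff_dvd_coeff]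
    intro i
    rcases i with _ | _ | i
    · exact Int.gcd_dvd_left _ _
    · exact Int.gcd_dvd_right _ _
    · have h3 : f.coeff (i + 1 + 1) = 0 := coeff_eq_zero_of_natDegree_lt (by omega)
      rw [h3]
      exact dvd_zero _
  have h2 := hp _ h1
  have h3 := Int.isUnit_iff.1 h2
  omega

/-- **The inequality for linear polynomials** (Roth, Ridout) -/
theorem rat_main (q : ℕ) (hq : 1 ≤ q) (G : ℤ[X]) (hG : Squarefree (G.map (Int.castRingHom ℚ)))
    (h1 : G.natDegree ≤ q) (h2 : q ≤ G.natDegree + 1) (S : Finset ℕ) (hS : ∀ p ∈ S, p.Prime)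
    (ε : ℝ) (hε : 0 < ε) : ∃ C : ℝ, ∀ f : ℤ[X], Irreducible f → f.natDegree = 1 →
      resultant f G 1 q ≠ 0 →
      q * Real.log (mm f) - Real.log |((resultant f G 1 q : ℤ) : ℝ)| +
        ∑ p ∈ S, (padicValInt p (resultant f G 1 q) : ℝ) * Real.log p ≤
      (2 + ε) * Real.log (mm f) + C := by
  classical
  obtain ⟨P, c, hc, hP, hPP, hres⟩ := exists_P1 G hG q h1 h2
  obtain ⟨W, hW⟩ := Pool.Agent.NH28.QP.t_AV S hS
  obtain ⟨F, hF, c1, hc1⟩ := rat_all hS hW hq P hP hPP ε hε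
  have hfin2 : {f : ℤ[X] | f.natDegree = 1 ∧ ![f.coeff 0, f.coeff 1] ∈ F}.Finite := by
    refine Set.Finite.of_finite_image (f := fun f : ℤ[X] => ![f.coeff 0, f.coeff 1])
      (hF.subset ?_) ?_
    · rintro x ⟨f, hf, rfl⟩
      exact hf.2
    · intro f hf g hg h
      have e0 : f.coeff 0 = g.coeff 0 := congrFun h 0
      have e1 : f.coeff 1 = g.coeff 1 := congrFun h 1
      ext i
      rcases i with _ | _ | i
      · exact e0
      · exact e1
      · rw [coeff_eq_zero_of_natDegree_lt (by rw [hf.1]; omega),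
          coeff_eq_zero_of_natDegree_lt (by rw [hg.1]; omega)]
  obtain ⟨B, hB⟩ := (hfin2.image fun f : ℤ[X] =>
    q * Real.log (mm f) - Real.log |((resultant f G 1 q : ℤ) : ℝ)| +
        ∑ p ∈ S, (padicValInt p (resultant f G 1 q) : ℝ) * Real.log p -
      ((2 + ε) * Real.log (mm f))).bddAbove
  set c2 : ℝ := c1 - ∑ v ∈ Tp S, Real.log (W v c) with hc2
  refine ⟨max B (q * Real.log 2 + (2 + ε) * Real.log 2 + c2), fun f hf hd hR => ?_⟩
  have hmm : 1 ≤ mm f := one_le_mm hf.ne_zero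
  have hcop := coprime_of hd (hf.isPrimitive (by omega))
  set y : Fin 2 → ℤ := ![f.coeff 0, f.coeff 1] with hy
  have hycop : IsCoprime (y 0) (y 1) := hcop
  have hH1 : 1 ≤ Hx y := one_le_Hx y (prm2_ne hycop)
  by_cases hyF : y ∈ F
  · have h3 := hB (Set.mem_image_of_mem _ (show f ∈ _ from ⟨hd, hyF⟩))
    have h4 := le_max_left B (q * Real.log 2 + (2 + ε) * Real.log 2 + c2)
    linarith
  · have h3 := hc1 y hycop hyF
    have hr := hres f hd.le
    have hRQ : ((resultant f G 1 q : ℤ) : Qb) ≠ 0 := by exact_mod_cast hR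
    have hel : ∀ l, el (P l) y ≠ 0 := by
      rw [hr] at hRQ
      exact fun l => Finset.prod_ne_zero_iff.1 (right_ne_zero_of_mul hRQ) l (Finset.mem_univ l)
    have h4 : ∀ v ∈ Tp S, ∑ i, lam1 W v (P i) y =
        q * Real.log (nv2 v y) - Real.log (W v ((resultant f G 1 q : ℤ) : Qb)) +
          Real.log (W v c) := by
      intro v _
      unfold lam1
      rw [hr, map_mul, map_prod, Real.log_mul ((W v).ne_zero hc)
        (Finset.prod_ne_zero_iff.2 fun l _ => (W v).ne_zero (hel l)),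
        Real.log_prod fun l _ => (W v).ne_zero (hel l), Finset.sum_sub_distrib, Finset.sum_const,
        Finset.card_univ, Fintype.card_fin, nsmul_eq_mul]
      ring
    rw [Finset.sum_congr rfl h4, Finset.sum_add_distrib, sum_Tp] at h3
    have h5 : ∀ p ∈ S, (q : ℝ) * Real.log (nv2 (some p) y) -
        Real.log (W (some p) ((resultant f G 1 q : ℤ) : Qb)) =
        (padicValInt p (resultant f G 1 q) : ℝ) * Real.log p := by
      intro p hp
      have hFp : Fact p.Prime := ⟨hS p hp⟩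
      rw [W_int_p hW hp, padicNorm.eq_zpow_of_nonzero (by exact_mod_cast hR),
        padicValRat.of_int, zpow_neg, zpow_natCast]
      show (q : ℝ) * Real.log 1 - _ = _
      push_cast
      rw [Real.log_one, Real.log_inv, Real.log_pow]
      ring
    rw [Finset.sum_congr rfl h5, W_int hW] at h3
    have e6 : nv2 none y = Hx y := rfl
    rw [e6] at h3
    have h6 := le_max_right B (q * Real.log 2 + (2 + ε) * Real.log 2 + c2)
    have h7 : Real.log (mm f) ≤ Real.log 2 + Real.log (Hx y) := by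
      rw [← Real.log_mul (by norm_num) (by linarith)]
      exact Real.log_le_log (by linarith) (mm_le1 f hd)
    have h8 : Real.log (Hx y) ≤ Real.log 2 + Real.log (mm f) := by
      rw [← Real.log_mul (by norm_num) (by linarith)]
      exact Real.log_le_log (by linarith) (Hx_le1 f hd)
    have h9 := mul_le_mul_of_nonneg_left h7 (Nat.cast_nonneg q)
    have h10 := mul_le_mul_of_nonneg_left h8 (by linarith : (0 : ℝ) ≤ 2 + ε)
    linarith

end Pool.Agent.H933.QP
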