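import Pool.Agent.H933.QP.All

/-!
The resultant of the generic quadratic polynomial with a given polynomial.
-/

set_option autoImplicit false

namespace Pool.Agent.H933.QP

open Polynomial
open Pool.Agent.NH28.QP (Qb PQ mp Dc Hp Hx Prm ev Tp Gd nv lam)

/-- the generic quadratic polynomial -/
noncomputable def fg (k : Type) [Field k] : Polynomial (MvPolynomial (Fin 3) k) :=
  C (MvPolynomial.X 0) + C (MvPolynomial.X 1) * X + C (MvPolynomial.X 2) * X ^ 2

theorem fg_deg (k : Type) [Field k] : (fg k).natDegree ≤ 2 := by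
  unfold fg
  compute_degree

theorem fg_coeff (k : Type) [Field k] : (fg k).coeff 2 = MvPolynomial.X 2 := by
  unfold fg
  simp

theorem fg_eval (a : Qb) : (fg Qb).eval (MvPolynomial.C a) = Hp (a, 1) := by
  unfold fg Hp
  simp only [eval_add, eval_mul, eval_C, eval_X, eval_pow, one_pow, mul_one, map_one, one_mul,
    map_pow]
  ring

theorem exists_roots (G : ℤ[X]) (hG : Squarefree (G.map (Int.castRingHom ℚ))) :
    ∃ α : Fin G.natDegree → Qb, Function.Injective α ∧
      G.map (Int.castRingHom Qb) = C ((G.leadingCoeff : ℤ) : Qb) * ∏ l, (X - C (α l)) := by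
  classical
  have hsep : (G.map (Int.castRingHom ℚ)).Separable := PerfectField.separable_iff_squarefree.2 hG
  have hsep2 : (G.map (Int.castRingHom Qb)).Separable := by
    have h1 := hsep.map (f := algebraMap ℚ Qb)
    rw [Polynomial.map_map] at h1
    have e : (algebraMap ℚ Qb).comp (Int.castRingHom ℚ) = Int.castRingHom Qb :=
      RingHom.ext_int _ _
    rwa [e] at h1
  have hspl := IsAlgClosed.splits (G.map (Int.castRingHom Qb))
  have hnd : (G.map (Int.castRingHom Qb)).roots.Nodup := nodup_roots hsep2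
  have hcard : (G.map (Int.castRingHom Qb)).roots.toFinset.card = G.natDegree := by
    rw [Multiset.toFinset_card_of_nodup hnd, ← hspl.natDegree_eq_card_roots,
      natDegree_map_eq_of_injective (RingHom.injective_int _)]
  set e := (Finset.equivFinOfCardEq hcard).symm with he
  refine ⟨fun l => (e l : Qb), fun a b h => e.injective (Subtype.ext h), ?_⟩
  have h1 := hspl.eq_prod_roots
  rw [leadingCoeff_map_of_injective (RingHom.injective_int _)] at h1
  refine h1.trans ?_
  congr 1
  have h2 : (Multiset.map (fun a => X - C a) (G.map (Int.castRingHom Qb)).roots).prod =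
      ∏ a ∈ (G.map (Int.castRingHom Qb)).roots.toFinset, (X - C a) := by
    rw [Finset.prod_eq_multiset_prod, Multiset.toFinset_val, Multiset.dedup_eq_self.2 hnd]
  rw [h2, ← Finset.prod_coe_sort, Equiv.prod_comp e (fun a => (X - C (a : Qb)))]

theorem res_prod (G : ℤ[X]) (α : Fin G.natDegree → Qb) (lc : Qb)
    (h : G.map (Int.castRingHom Qb) = C lc * ∏ l, (X - C (α l))) :
    resultant (fg Qb) ((G.map (Int.castRingHom Qb)).map MvPolynomial.C) 2 G.natDegree =
      MvPolynomial.C (lc ^ 2) * ∏ l, Hp (α l, 1) := by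
  have e1 : (G.map (Int.castRingHom Qb)).map (MvPolynomial.C : Qb →+* PQ) =
      C (MvPolynomial.C lc) * ∏ l, (X - C (MvPolynomial.C (α l))) := by
    rw [h, Polynomial.map_mul, Polynomial.map_C, Polynomial.map_prod]
    congr 1
    refine Finset.prod_congr rfl fun l _ => ?_
    rw [Polynomial.map_sub, Polynomial.map_X, Polynomial.map_C]
  rw [e1, resultant_C_mul_right]
  have e2 := resultant_prod_right (Finset.univ : Finset (Fin G.natDegree)) (fg Qb)
    (fun l => X - C (MvPolynomial.C (α l))) 2 (fg_deg Qb) (by simp)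
  have e3 : (∏ l : Fin G.natDegree, (X - C (MvPolynomial.C (α l) : PQ))).natDegree =
      G.natDegree := by
    rw [natDegree_prod_of_monic _ _ fun l _ => monic_X_sub_C _]
    simp
  rw [e3] at e2
  rw [e2, map_pow]
  congr 1
  refine Finset.prod_congr rfl fun l _ => ?_
  rw [natDegree_X_sub_C, resultant_X_sub_C_right _ _ _ (fg_deg Qb), fg_eval]
  ring

theorem exists_P (G : ℤ[X]) (hG : Squarefree (G.map (Int.castRingHom ℚ))) (q : ℕ)
    (h1 : G.natDegree ≤ q) (h2 : q ≤ G.natDegree + 1) : ∃ (P : Fin q → Qb × Qb) (c : Qb), c ≠ 0 ∧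
      (∀ l, P l ≠ 0) ∧ (∀ l l', l ≠ l' → (P l).1 * (P l').2 - (P l).2 * (P l').1 ≠ 0) ∧
      resultant (fg Qb) ((G.map (Int.castRingHom Qb)).map MvPolynomial.C) 2 q =
        MvPolynomial.C c * ∏ l, Hp (P l) := by
  obtain ⟨α, hα, hprod⟩ := exists_roots G hG
  have hG0 : G ≠ 0 := by
    rintro rfl
    rw [Polynomial.map_zero] at hG
    exact hG.ne_zero rfl
  have hlc : ((G.leadingCoeff : ℤ) : Qb) ≠ 0 := by
    exact_mod_cast leadingCoeff_ne_zero.2 hG0
  have hres := res_prod G α _ hprod
  rcases Nat.eq_or_lt_of_le h1 with h3 | h3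
  · subst h3
    refine ⟨fun l => (α l, 1), _, pow_ne_zero 2 hlc, fun l h => ?_, fun l l' hll => ?_, hres⟩
    · exact one_ne_zero (congrArg Prod.snd h)
    · simp only [mul_one, one_mul]
      exact sub_ne_zero.2 fun h => hll (hα h)
  · obtain rfl : q = G.natDegree + 1 := by omega
    refine ⟨Fin.snoc (fun l => (α l, 1)) (1, 0), _, pow_ne_zero 2 hlc, fun l => ?_,
      fun l l' hll => ?_, ?_⟩
    · refine Fin.lastCases ?_ (fun l => ?_) l
      · rw [Fin.snoc_last]
        exact fun h => one_ne_zero (congrArg Prod.fst h)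
      · rw [Fin.snoc_castSucc]
        exact fun h => one_ne_zero (congrArg Prod.snd h)
    · revert l' hll
      refine Fin.lastCases ?_ (fun l => ?_) l
      · intro l'
        refine Fin.lastCases ?_ (fun l' => ?_) l'
        · exact fun h => absurd rfl h
        · intro _
          rw [Fin.snoc_last, Fin.snoc_castSucc]
          simp
      · intro l'
        refine Fin.lastCases ?_ (fun l' => ?_) l'
        · intro _
          rw [Fin.snoc_last, Fin.snoc_castSucc]
          simp
        · intro hll
          rw [Fin.snoc_castSucc, Fin.snoc_castSucc]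
          simp only [mul_one, one_mul]
          exact sub_ne_zero.2 fun h => hll (by rw [hα h])
    · rw [resultant_add_right_deg _ _ _ _ 1 (by
        exact natDegree_map_le.trans natDegree_map_le), fg_coeff, hres, Fin.prod_univ_castSucc,
        Fin.snoc_last]
      simp only [Fin.snoc_castSucc]
      have e : Hp ((1 : Qb), (0 : Qb)) = MvPolynomial.X 2 := by
        unfold Hp
        simp
      rw [e, pow_one]
      ring

/-- the rational form -/
noncomputable def Ph (G : ℤ[X]) (q : ℕ) : MvPolynomial (Fin 3) ℚ :=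
  (MvPolynomial.X 1 ^ 2 - 4 * (MvPolynomial.X 0 * MvPolynomial.X 2)) *
    resultant (fg ℚ) ((G.map (Int.castRingHom ℚ)).map MvPolynomial.C) 2 q

theorem mp_Ph (G : ℤ[X]) (q : ℕ) : mp (Ph G q) = Dc *
    resultant (fg Qb) ((G.map (Int.castRingHom Qb)).map MvPolynomial.C) 2 q := by
  unfold mp Ph Dc
  rw [map_mul, ← resultant_map_map]
  have e1 : (fg ℚ).map (MvPolynomial.map (algebraMap ℚ Qb)) = fg Qb := by
    unfold fg
    simp [Polynomial.map_add, Polynomial.map_mul, Polynomial.map_pow]
  have e2 : ((G.map (Int.castRingHom ℚ)).map (MvPolynomial.C : ℚ →+* MvPolynomial (Fin 3) ℚ)).map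
      (MvPolynomial.map (algebraMap ℚ Qb)) =
      (G.map (Int.castRingHom Qb)).map (MvPolynomial.C : Qb →+* PQ) := by
    rw [Polynomial.map_map, Polynomial.map_map, Polynomial.map_map]
    congr 1
    exact RingHom.ext_int _ _
  rw [e1, e2]
  congr 1
  simp

/-- the vector of the coefficients -/
def cf (f : ℤ[X]) : Fin 3 → ℤ := ![f.coeff 0, f.coeff 1, f.coeff 2]

theorem eq_of_deg {f : ℤ[X]} (hf : f.natDegree = 2) :
    f = C (f.coeff 0) + C (f.coeff 1) * X + C (f.coeff 2) * X ^ 2 := by
  conv_lhs => rw [f.as_sum_range_C_mul_X_pow' (n := 3) (by omega)]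
  rw [Finset.sum_range_succ, Finset.sum_range_succ, Finset.sum_range_succ, Finset.sum_range_zero,
    zero_add, pow_zero, mul_one, pow_one]

theorem cf_inj {f g : ℤ[X]} (hf : f.natDegree = 2) (hg : g.natDegree = 2) (h : cf f = cf g) :
    f = g := by
  have h0 := congrFun h 0
  have h1 := congrFun h 1
  have h2 := congrFun h 2
  simp only [cf, Matrix.cons_val_zero, Matrix.cons_val_one, Matrix.cons_val] at h0 h1 h2
  rw [eq_of_deg hf, eq_of_deg hg, h0, h1, h2]

theorem ev_Ph (G : ℤ[X]) (q : ℕ) (f : ℤ[X]) (hf : f.natDegree = 2) :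
    ev (cf f) (mp (Ph G q)) = ((discr f * resultant f G 2 q : ℤ) : Qb) := by
  rw [mp_Ph, ev_mul, ev_Dc]
  push_cast
  have hd : f.degree = 2 := by
    rw [degree_eq_natDegree, hf]
    · rfl
    · rintro rfl
      simp at hf
  rw [discr_of_degree_eq_two hd]
  congr 1
  · simp only [cf, Matrix.cons_val_zero, Matrix.cons_val_one, Matrix.cons_val]
    push_cast
    ring
  · unfold ev
    rw [← resultant_map_map, ← eq_intCast (Int.castRingHom Qb), ← resultant_map_map]
    have e1 : (fg Qb).map (MvPolynomial.eval (fun i => ((cf f i : ℤ) : Qb))) =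
        f.map (Int.castRingHom Qb) := by
      conv_rhs => rw [eq_of_deg hf]
      unfold fg
      simp [Polynomial.map_add, Polynomial.map_mul, Polynomial.map_pow, cf]
    have e2 : ((G.map (Int.castRingHom Qb)).map (MvPolynomial.C : Qb →+* PQ)).map
        (MvPolynomial.eval (fun i => ((cf f i : ℤ) : Qb))) = G.map (Int.castRingHom Qb) := by
      rw [Polynomial.map_map, Polynomial.map_map]
      congr 1
      exact RingHom.ext_int _ _
    rw [e1, e2]

theorem prm_cf {f : ℤ[X]} (hf : f.natDegree = 2) (hp : f.IsPrimitive) : Prm (cf f) := by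
  intro d hd
  apply hp
  rw [C_dvd_iff_dvd_coeff]
  intro i
  rcases i with _ | _ | _ | i
  · exact hd 0
  · exact hd 1
  · exact hd 2
  · rw [coeff_eq_zero_of_natDegree_lt (by omega)]
    exact dvd_zero _

end Pool.Agent.H933.QP
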