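import Pool.Agent.H933.QP.Tr1
import Pool.Graph.R_seed8.H990R4.VJ.D
import Pool.Graph.R_pool_sql_team_seeded_3dad9d7b.NH28.QP.COR
import Pool.Graph.R_seed8.TH847.LS.Quad

/-!
The inequality for quadratic polynomials.
-/

set_option autoImplicit false

namespace Pool.Agent.H933.QP

open Polynomial
open Pool.Agent.NH28.QP (Qb PQ mp Dc Hp Hx Prm ev Tp Gd nv lam)
open Pool.Agent.H990R4.VJ (mm one_le_mm coeff_le)

theorem mm_le (f : ℤ[X]) (hf : f.natDegree = 2) : mm f ≤ 3 * Hx (cf f) := by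
  have h1 := mahlerMeasure_le_sum_norm_coeff (f.map (Int.castRingHom ℂ))
  have h2 : (f.map (Int.castRingHom ℂ)).natDegree < 3 :=
    lt_of_le_of_lt natDegree_map_le (by omega)
  rw [sum_over_range' _ (by simp) 3 h2, Finset.sum_range_succ, Finset.sum_range_succ,
    Finset.sum_range_succ, Finset.sum_range_zero] at h1
  have h3 : ∀ i : ℕ, ‖(f.map (Int.castRingHom ℂ)).coeff i‖ = |((f.coeff i : ℤ) : ℝ)| := by
    intro i
    rw [coeff_map]
    simp
  rw [h3, h3, h3] at h1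
  have h4 := Pool.Agent.NH28.QP.ST45.le_Hx (cf f) 0
  have h5 := Pool.Agent.NH28.QP.ST45.le_Hx (cf f) 1
  have h6 := Pool.Agent.NH28.QP.ST45.le_Hx (cf f) 2
  simp only [cf, Matrix.cons_val_zero, Matrix.cons_val_one, Matrix.cons_val] at h4 h5 h6
  unfold mm
  unfold cf
  linarith

theorem Hx_le (f : ℤ[X]) (hf : f.natDegree = 2) : Hx (cf f) ≤ 4 * mm f := by
  have h1 : ∀ j, (|f.coeff j| : ℝ) ≤ 4 * mm f := by
    intro j
    have := coeff_le f j
    rw [hf] at this
    norm_num at this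
    exact this
  have hm : 0 ≤ mm f := mahlerMeasure_nonneg _
  refine Real.iSup_le (fun i => ?_) (by positivity)
  fin_cases i
  · exact h1 0
  · exact h1 1
  · exact h1 2

theorem irr_map {f : ℤ[X]} (hf : Irreducible f) (hd : f.natDegree = 2) :
    Irreducible (f.map (algebraMap ℤ ℚ)) :=
  ((hf.isPrimitive (by omega)).irreducible_iff_irreducible_map_fraction_map).1 hf

theorem deg_two {f : ℤ[X]} (hd : f.natDegree = 2) : f.degree = 2 := by
  rw [degree_eq_natDegree, hd]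
  · rfl
  · rintro rfl
    simp at hd

theorem disc_ne {f : ℤ[X]} (hf : Irreducible f) (hd : f.natDegree = 2) : discr f ≠ 0 := by
  intro h0
  rw [discr_of_degree_eq_two (deg_two hd)] at h0
  have hirr := irr_map hf hd
  set g := f.map (algebraMap ℤ ℚ) with hg
  have hgd : g.natDegree = 2 := by
    rw [hg, natDegree_map_eq_of_injective (RingHom.injective_int _), hd]
  have ha : f.coeff 2 ≠ 0 := by
    have := leadingCoeff_ne_zero.2 hf.ne_zero
    rwa [leadingCoeff, hd] at this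
  have h1 : (C (2 * (f.coeff 2 : ℚ)) * X + C (f.coeff 1 : ℚ)) ^ 2 = C (4 * (f.coeff 2 : ℚ)) * g := by
    have h2 : g = C (f.coeff 0 : ℚ) + C (f.coeff 1 : ℚ) * X + C (f.coeff 2 : ℚ) * X ^ 2 := by
      rw [hg]
      conv_lhs => rw [eq_of_deg hd]
      simp only [Polynomial.map_add, Polynomial.map_mul, Polynomial.map_pow, Polynomial.map_C,
        Polynomial.map_X]
      simp only [eq_intCast (algebraMap ℤ ℚ)]
    have h3 : (C (f.coeff 1 : ℚ)) ^ 2 = C (4 * (f.coeff 2 : ℚ)) * C (f.coeff 0 : ℚ) := by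
      rw [← C_pow, ← C_mul]
      congr 1
      have h4 : (f.coeff 1 : ℤ) ^ 2 = 4 * f.coeff 2 * f.coeff 0 := by linarith
      exact_mod_cast h4
    rw [h2, add_sq, h3]
    simp only [C_mul, map_ofNat]
    ring
  have h2 : g ∣ (C (2 * (f.coeff 2 : ℚ)) * X + C (f.coeff 1 : ℚ)) ^ 2 := by
    rw [h1]
    exact dvd_mul_left _ _
  have h3 := hirr.prime.dvd_of_dvd_pow h2
  have h4 : (C (2 * (f.coeff 2 : ℚ)) * X + C (f.coeff 1 : ℚ)).natDegree = 1 :=
    natDegree_linear (mul_ne_zero two_ne_zero (by exact_mod_cast ha))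
  have h5 := natDegree_le_of_dvd h3 (by
    intro h
    rw [h] at h4
    simp at h4)
  omega

theorem lam_sum (G : ℤ[X]) (q : ℕ) {S : Finset ℕ} (hS : ∀ p ∈ S, p.Prime)
    {W : Option ℕ → AbsoluteValue Qb ℝ} (hW : Gd S W) (f : ℤ[X]) (hd : f.natDegree = 2)
    (hD : discr f ≠ 0) (hR : resultant f G 2 q ≠ 0) :
    ∑ v ∈ Tp S, lam W v (q + 2) (mp (Ph G q)) (cf f) =
      (q + 2) * Real.log (Hx (cf f)) - Real.log |((discr f : ℤ) : ℝ)| -
        Real.log |((resultant f G 2 q : ℤ) : ℝ)| +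
      ∑ p ∈ S, ((padicValInt p (discr f) : ℝ) * Real.log p +
        (padicValInt p (resultant f G 2 q) : ℝ) * Real.log p) := by
  rw [sum_Tp]
  have hDR : ((discr f : ℤ) : ℝ) ≠ 0 := by exact_mod_cast hD
  have hRR : ((resultant f G 2 q : ℤ) : ℝ) ≠ 0 := by exact_mod_cast hR
  have h2 : lam W none (q + 2) (mp (Ph G q)) (cf f) =
      (q + 2) * Real.log (Hx (cf f)) - Real.log |((discr f : ℤ) : ℝ)| -
        Real.log |((resultant f G 2 q : ℤ) : ℝ)| := by
    unfold lam
    rw [ev_Ph G q f hd]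
    have h3 := hW.inf ((discr f * resultant f G 2 q : ℤ) : ℚ)
    rw [map_intCast] at h3
    rw [h3, Rat.cast_intCast]
    push_cast
    rw [abs_mul, Real.log_mul (abs_ne_zero.2 hDR) (abs_ne_zero.2 hRR)]
    show (q + 2 : ℝ) * Real.log (Hx (cf f)) - _ = _
    ring
  have h3 : ∀ p ∈ S, lam W (some p) (q + 2) (mp (Ph G q)) (cf f) =
      (padicValInt p (discr f) : ℝ) * Real.log p +
        (padicValInt p (resultant f G 2 q) : ℝ) * Real.log p := by
    intro p hp
    have hF : Fact p.Prime := ⟨hS p hp⟩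
    unfold lam
    rw [ev_Ph G q f hd]
    have h3 := hW.fin p hp ((discr f * resultant f G 2 q : ℤ) : ℚ)
    rw [map_intCast] at h3
    rw [h3, padicNorm.eq_zpow_of_nonzero (by exact_mod_cast mul_ne_zero hD hR),
      padicValRat.of_int, padicValInt.mul hD hR, zpow_neg, zpow_natCast]
    show ((q + 2 : ℕ) : ℝ) * Real.log 1 - _ = _
    push_cast
    rw [Real.log_one, Real.log_inv, Real.log_pow]
    push_cast
    ring
  rw [h2, Finset.sum_congr rfl h3]

/-- **The inequality for quadratic polynomials** -/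
theorem quad_main (q : ℕ) (G : ℤ[X]) (hG : Squarefree (G.map (Int.castRingHom ℚ)))
    (h1 : G.natDegree ≤ q) (h2 : q ≤ G.natDegree + 1) (S : Finset ℕ) (hS : ∀ p ∈ S, p.Prime)
    (ε : ℝ) (hε : 0 < ε) : ∃ C : ℝ, ∀ f : ℤ[X], Irreducible f → f.natDegree = 2 →
      resultant f G 2 q ≠ 0 →
      q * Real.log (mm f) - Real.log |((resultant f G 2 q : ℤ) : ℝ)| +
        ∑ p ∈ S, (padicValInt p (resultant f G 2 q) : ℝ) * Real.log p ≤
      (2 + ε) * Real.log (mm f) + (Real.log |((discr f : ℤ) : ℝ)| -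
        ∑ p ∈ S, (padicValInt p (discr f) : ℝ) * Real.log p) + C := by
  classical
  obtain ⟨P, c, hc, hP, hPP, hres⟩ := exists_P G hG q h1 h2
  obtain ⟨W, hW⟩ := Pool.Agent.NH28.QP.t_AV S hS
  have hΦ : mp (Ph G q) = MvPolynomial.C c * (Dc * ∏ l, Hp (P l)) := by
    rw [mp_Ph, hres]
    ring
  have hfin := all q P hP hPP (Ph G q) c hc hΦ S hS W hW ε hε
  -- the finite set of exceptional polynomials
  have hfin2 : {f : ℤ[X] | f.natDegree = 2 ∧ (Prm (cf f) ∧ ev (cf f) (mp (Ph G q)) ≠ 0 ∧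
      (4 + ε) * Real.log (Hx (cf f)) < ∑ v ∈ Tp S, lam W v (q + 2) (mp (Ph G q)) (cf f))}.Finite := by
    refine Set.Finite.of_finite_image (f := cf) (hfin.subset ?_) ?_
    · rintro x ⟨f, hf, rfl⟩
      exact hf.2
    · intro f hf g hg h
      exact cf_inj hf.1 hg.1 h
  obtain ⟨B, hB⟩ := (hfin2.image fun f : ℤ[X] =>
    q * Real.log (mm f) - Real.log |((resultant f G 2 q : ℤ) : ℝ)| +
        ∑ p ∈ S, (padicValInt p (resultant f G 2 q) : ℝ) * Real.log p -
      ((2 + ε) * Real.log (mm f) + (Real.log |((discr f : ℤ) : ℝ)| -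
        ∑ p ∈ S, (padicValInt p (discr f) : ℝ) * Real.log p))).bddAbove
  refine ⟨max B (q * Real.log 3 + (2 + ε) * Real.log 4), fun f hf hd hR => ?_⟩
  have hD := disc_ne hf hd
  have hpr := prm_cf hd (hf.isPrimitive (by omega))
  have hmm : 1 ≤ mm f := one_le_mm hf.ne_zero
  have hH1 : 1 ≤ Hx (cf f) := Pool.Agent.NH28.QP.ST45.one_le_Hx
    (Pool.Agent.NH28.QP.ST45.prm_ne hpr)
  have hev : ev (cf f) (mp (Ph G q)) ≠ 0 := by
    rw [ev_Ph G q f hd]
    exact_mod_cast mul_ne_zero hD hR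
  by_cases hex : (4 + ε) * Real.log (Hx (cf f)) <
      ∑ v ∈ Tp S, lam W v (q + 2) (mp (Ph G q)) (cf f)
  · have h3 := hB (Set.mem_image_of_mem _ (show f ∈ _ from ⟨hd, hpr, hev, hex⟩))
    have h4 := le_max_left B (q * Real.log 3 + (2 + ε) * Real.log 4)
    linarith
  · rw [not_lt, lam_sum G q hS hW f hd hD hR, Finset.sum_add_distrib] at hex
    have h4 := le_max_right B (q * Real.log 3 + (2 + ε) * Real.log 4)
    have h5 : Real.log (mm f) ≤ Real.log 3 + Real.log (Hx (cf f)) := by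
      rw [← Real.log_mul (by norm_num) (by linarith)]
      exact Real.log_le_log (by linarith) (mm_le f hd)
    have h6 : Real.log (Hx (cf f)) ≤ Real.log 4 + Real.log (mm f) := by
      rw [← Real.log_mul (by norm_num) (by linarith)]
      exact Real.log_le_log (by linarith) (Hx_le f hd)
    have h7 := mul_le_mul_of_nonneg_left h5 (Nat.cast_nonneg q)
    have h8 := mul_le_mul_of_nonneg_left h6 (by linarith : (0 : ℝ) ≤ 2 + ε)
    linarith

end Pool.Agent.H933.QP
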